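import Pool.Agent.Helper66.ZC.Main

/-!
# Cyclic covers `w ^ m = f` of affine varieties, ramified along `f = 0`
-/

open MvPolynomial (aeval)
open PowerSeries

namespace Pool.Agent.Helper66.ZC

section

variable {F : Type} [Field F] [Fintype F] {n : ℕ}

/-- The closed subset `f = 0` of the affine variety defined by `I`. -/
def branchSet (I : Set (MvPolynomial (Fin n) F)) (f : MvPolynomial (Fin n) F) :
    Set (Fin n → AlgebraicClosure F) := {v | v ∈ zeroLocus I ∧ aeval v f = 0}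

/-- The cyclic cover `w ^ m = f` of the affine variety defined by `I`: the coordinate `w` is
`v 0`, the other coordinates `Fin.tail v` are those of the point of the base. -/
def cyclicSet (I : Set (MvPolynomial (Fin n) F)) (f : MvPolynomial (Fin n) F) (m : ℕ) :
    Set (Fin (n + 1) → AlgebraicClosure F) :=
  {v | Fin.tail v ∈ zeroLocus I ∧ v 0 ^ m = aeval (Fin.tail v) f}

/-- The ramification locus. -/
def ramSet' (I : Set (MvPolynomial (Fin n) F)) (f : MvPolynomial (Fin n) F) :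
    Set (Fin (n + 1) → AlgebraicClosure F) := {v | v 0 = 0 ∧ Fin.tail v ∈ branchSet I f}

omit [Fintype F] in
theorem base_union (I : Set (MvPolynomial (Fin n) F)) (f : MvPolynomial (Fin n) F) :
    openSet I f ∪ branchSet I f = zeroLocus I := by
  ext v
  simp only [openSet, branchSet, Set.mem_union, Set.mem_ofPred_eq]
  tauto

omit [Fintype F] in
theorem base_disjoint (I : Set (MvPolynomial (Fin n) F)) (f : MvPolynomial (Fin n) F) :
    Disjoint (openSet I f) (branchSet I f) := by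
  rw [Set.disjoint_left]
  rintro v h1 h2
  exact h1.2 h2.2

omit [Fintype F] in
theorem cyclic_union (I : Set (MvPolynomial (Fin n) F)) (f : MvPolynomial (Fin n) F) {m : ℕ}
    (hm : m ≠ 0) : coverSet I f m ∪ ramSet' I f = cyclicSet I f m := by
  ext v
  simp only [openSet, coverSet, branchSet, ramSet', cyclicSet, Set.mem_union,
    Set.mem_ofPred_eq]
  constructor
  · rintro (⟨⟨h1, _⟩, h⟩ | ⟨h1, h2, h3⟩)
    · exact ⟨h1, h⟩
    · exact ⟨h2, by rw [h1, h3, zero_pow hm]⟩
  · rintro ⟨h1, h⟩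
    by_cases h0 : aeval (Fin.tail v) f = 0
    · rw [h0] at h
      exact Or.inr ⟨pow_eq_zero_iff hm |>.1 h, h1, h0⟩
    · exact Or.inl ⟨⟨h1, h0⟩, h⟩

omit [Fintype F] in
theorem cyclic_disjoint (I : Set (MvPolynomial (Fin n) F)) (f : MvPolynomial (Fin n) F) (m : ℕ) :
    Disjoint (coverSet I f m) (ramSet' I f) := by
  rw [Set.disjoint_left]
  rintro v h1 h2
  exact h1.1.2 h2.2.2

theorem numPts_ram' (I : Set (MvPolynomial (Fin n) F)) (f : MvPolynomial (Fin n) F) (k : ℕ) :
    numPts F (ramSet' I f) k = numPts F (branchSet I f) k := by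
  unfold numPts
  have hinj : Function.Injective fun u : Fin n → AlgebraicClosure F =>
      (Fin.cons 0 u : Fin (n + 1) → AlgebraicClosure F) := by
    intro u u' h
    have := congrArg Fin.tail h
    simpa using this
  rw [← Set.ncard_image_of_injective _ hinj]
  congr 1
  ext v
  constructor
  · rintro ⟨⟨h1, h2⟩, h3⟩
    refine ⟨Fin.tail v, ⟨h2, fun i => h3 i.succ⟩, ?_⟩
    show (Fin.cons 0 (Fin.tail v) : Fin (n + 1) → AlgebraicClosure F) = v
    rw [← h1, Fin.cons_self_tail]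
  · rintro ⟨u, ⟨h1, h2⟩, rfl⟩
    refine ⟨⟨rfl, ?_⟩, ?_⟩
    · show Fin.tail (Fin.cons 0 u : Fin (n + 1) → AlgebraicClosure F) ∈ branchSet I f
      rw [Fin.tail_cons]; exact h1
    · intro i
      refine Fin.cases ?_ (fun j => ?_) i
      · show (0 : AlgebraicClosure F) ^ _ = 0
        rw [zero_pow (pow_ne_zero _ Fintype.card_ne_zero)]
      · exact h2 j

theorem zeta_base (I : Set (MvPolynomial (Fin n) F)) (f : MvPolynomial (Fin n) F) :
    zeta (numPts F (zeroLocus I)) =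
      zeta (numPts F (openSet I f)) * zeta (numPts F (branchSet I f)) := by
  rw [← zeta_add]
  apply zeta_congr
  intro k hk
  rw [← numPts_union _ _ (base_disjoint I f) hk, base_union I f]

theorem zeta_cyclic (I : Set (MvPolynomial (Fin n) F)) (f : MvPolynomial (Fin n) F) {m : ℕ}
    (hm : m ≠ 0) : zeta (numPts F (cyclicSet I f m)) =
      zeta (numPts F (coverSet I f m)) * zeta (numPts F (branchSet I f)) := by
  rw [← zeta_add]
  apply zeta_congr
  intro k hk
  rw [← numPts_ram' I f k, ← numPts_union _ _ (cyclic_disjoint I f m) hk, cyclic_union I f hm]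

/-- The congruence for cyclic covers of prime power degree. -/
theorem cyclic {ℓ r : ℕ} (hℓ : ℓ.Prime) (hdvd : ℓ ^ r ∣ Fintype.card F - 1)
    (I : Set (MvPolynomial (Fin n) F)) (f : MvPolynomial (Fin n) F)
    {S₁ S₂ C₁ C₂ P₁ P₂ : Polynomial ℤ} (hS₁ : S₁.coeff 0 = 1) (hC₁ : C₁.coeff 0 = 1)
    (hC₂ : C₂.coeff 0 = 1)
    (hS : zeta (numPts F (zeroLocus I)) *
      ((S₂.map (Int.castRingHom ℚ) : Polynomial ℚ) : ℚ⟦X⟧) =
      ((S₁.map (Int.castRingHom ℚ) : Polynomial ℚ) : ℚ⟦X⟧))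
    (hC : zeta (numPts F (branchSet I f)) *
      ((C₂.map (Int.castRingHom ℚ) : Polynomial ℚ) : ℚ⟦X⟧) =
      ((C₁.map (Int.castRingHom ℚ) : Polynomial ℚ) : ℚ⟦X⟧))
    (hX : zeta (numPts F (cyclicSet I f (ℓ ^ r))) *
      ((P₁.map (Int.castRingHom ℚ) : Polynomial ℚ) : ℚ⟦X⟧) =
      zeta (numPts F (zeroLocus I)) *
      ((P₂.map (Int.castRingHom ℚ) : Polynomial ℚ) : ℚ⟦X⟧)) :
    P₁.map (Int.castRingHom (ZMod ℓ)) *
      (S₁.map (Int.castRingHom (ZMod ℓ)) * C₂.map (Int.castRingHom (ZMod ℓ))) ^ (ℓ ^ r - 1) =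
      P₂.map (Int.castRingHom (ZMod ℓ)) *
      (S₂.map (Int.castRingHom (ZMod ℓ)) *
        C₁.map (Int.castRingHom (ZMod ℓ))) ^ (ℓ ^ r - 1) := by
  have hm : ℓ ^ r ≠ 0 := pow_ne_zero r hℓ.ne_zero
  have hb := zeta_base I f
  have hc := zeta_cyclic I f hm
  have hCne : zeta (numPts F (branchSet I f)) ≠ 0 := zeta_ne_zero _
  have hg := general₂ hℓ hdvd I f (A₁ := S₁ * C₂) (A₂ := S₂ * C₁) (P₁ := P₁) (P₂ := P₂)
    ?_ ?_ ?_
  · rwa [Polynomial.map_mul, Polynomial.map_mul] at hg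
  · rw [Polynomial.mul_coeff_zero, hS₁, hC₂, one_mul]
  · rw [Polynomial.map_mul, Polynomial.coe_mul, Polynomial.map_mul, Polynomial.coe_mul, ← hC,
      ← hS, hb]
    ring
  · rw [hb, hc] at hX
    apply mul_right_cancel₀ hCne
    linear_combination hX

end

end Pool.Agent.Helper66.ZC
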