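import Pool.Agent.Helper66.ZC.Star

/-!
# Consequences for multiplicities
-/

open Polynomial

namespace Pool.Agent.Helper66.ZC

section

variable {ℓ : ℕ}

theorem map_ne_zero' (hℓ : ℓ.Prime) {P : ℤ[X]} (h : P.coeff 0 = 1) :
    P.map (Int.castRingHom (ZMod ℓ)) ≠ 0 := by
  have : Fact ℓ.Prime := ⟨hℓ⟩
  intro h1
  have h2 := congrArg (coeff · 0) h1
  simp only [coeff_map, h, map_one, coeff_zero] at h2
  exact one_ne_zero h2

theorem rootMult_pow {R : Type} [Field R] {P : R[X]} (x : R) (M : ℕ) :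
    rootMultiplicity x (P ^ M) = M * rootMultiplicity x P := by
  classical
  rw [← count_roots, ← count_roots, roots_pow, Multiset.count_nsmul]

theorem mult_bound (hℓ : ℓ.Prime) {P₁ P₂ A₁ A₂ : ℤ[X]} (hP₁ : P₁.coeff 0 = 1)
    (hP₂ : P₂.coeff 0 = 1) (hA₁ : A₁.coeff 0 = 1) (hA₂ : A₂.coeff 0 = 1) {M : ℕ}
    (h : P₁.map (Int.castRingHom (ZMod ℓ)) * A₁.map (Int.castRingHom (ZMod ℓ)) ^ M =
      P₂.map (Int.castRingHom (ZMod ℓ)) * A₂.map (Int.castRingHom (ZMod ℓ)) ^ M)
    (S : Finset ℤ) (hS : ∀ u ∈ S, (u : ZMod ℓ) = 1) :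
    ∑ u ∈ S, rootMultiplicity ((u : ℚ)⁻¹) (P₁.map (Int.castRingHom ℚ)) +
        M * rootMultiplicity 1 (A₁.map (Int.castRingHom (ZMod ℓ))) ≤
      rootMultiplicity 1 (P₂.map (Int.castRingHom (ZMod ℓ))) +
        M * rootMultiplicity 1 (A₂.map (Int.castRingHom (ZMod ℓ))) := by
  have : Fact ℓ.Prime := ⟨hℓ⟩
  have h1 := sum_rootMultiplicity_le hℓ hP₁ S hS
  have h2 := congrArg (rootMultiplicity 1) h
  rw [rootMultiplicity_mul (mul_ne_zero (map_ne_zero' hℓ hP₁)
    (pow_ne_zero _ (map_ne_zero' hℓ hA₁))), rootMultiplicity_mul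
    (mul_ne_zero (map_ne_zero' hℓ hP₂) (pow_ne_zero _ (map_ne_zero' hℓ hA₂))),
    rootMult_pow, rootMult_pow] at h2
  omega

/-- The polynomial `1 + T + ... + T ^ (d - 1)`. -/
theorem one_sub_pow {R : Type} [CommRing R] (d : ℕ) :
    (1 : R[X]) - X ^ d = (∑ j ∈ Finset.range d, X ^ j) * (1 - X) := by
  have := geom_sum_mul_neg (X : R[X]) d
  rw [this]

theorem eval_geom {R : Type} [CommRing R] (d : ℕ) :
    eval 1 (∑ j ∈ Finset.range d, (X : R[X]) ^ j) = (d : R) := by
  rw [eval_finsetSum]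
  simp

theorem one_sub_ne {R : Type} [CommRing R] [Nontrivial R] : (1 : R[X]) - X ≠ 0 := by
  intro h
  have h4 := congrArg (coeff · 0) h
  simp at h4

theorem rootMult_one_sub_pow (hℓ : ℓ.Prime) {d : ℕ} (hd : ¬ ℓ ∣ d) :
    rootMultiplicity 1 ((1 : (ZMod ℓ)[X]) - X ^ d) = 1 := by
  have : Fact ℓ.Prime := ⟨hℓ⟩
  have hd0 : (d : ZMod ℓ) ≠ 0 := by
    intro h
    exact hd ((ZMod.natCast_eq_zero_iff d ℓ).1 h)
  have hg : (∑ j ∈ Finset.range d, (X : (ZMod ℓ)[X]) ^ j) ≠ 0 := by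
    intro h
    apply hd0
    rw [← eval_geom (R := ZMod ℓ) d, h, eval_zero]
  rw [one_sub_pow, rootMultiplicity_mul (mul_ne_zero hg one_sub_ne)]
  have h1 : rootMultiplicity 1 (∑ j ∈ Finset.range d, (X : (ZMod ℓ)[X]) ^ j) = 0 := by
    apply rootMultiplicity_eq_zero
    rw [IsRoot.def, eval_geom]
    exact hd0
  have h2 : (1 : (ZMod ℓ)[X]) - X = C (-1) * (X - C 1) := by
    rw [C_neg, C_1]; ring
  have h3 : rootMultiplicity 1 ((1 : (ZMod ℓ)[X]) - X) = 1 := by
    rw [h2, rootMultiplicity_mul (by rw [← h2]; exact one_sub_ne), rootMultiplicity_C,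
      rootMultiplicity_X_sub_C_self]
  rw [h1, h3]

theorem rootMult_one_sub (hℓ : ℓ.Prime) :
    rootMultiplicity 1 ((1 : (ZMod ℓ)[X]) - X) = 1 := by
  have h1 := rootMult_one_sub_pow hℓ (d := 1) (fun h => hℓ.one_lt.ne' (Nat.dvd_one.1 h))
  rwa [pow_one] at h1

variable {F : Type} [Field F] [Fintype F] {s : ℕ}

omit [Fintype F] in
theorem starA_coeff (L : Polynomial F) (c : Fin s → F) : (starA L c).coeff 0 = 1 := by
  unfold starA
  rw [coeff_zero_eq_eval_zero, eval_prod]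
  refine Finset.prod_eq_one fun i _ => ?_
  rw [eval_prod]
  refine Finset.prod_eq_one fun π hπ => ?_
  have hd := (irreducible_of_mem hπ).natDegree_pos
  simp [hd.ne']

theorem rootMult_prod {R : Type} [Field R] {ι : Type} (t : Finset ι) (g : ι → R[X]) (x : R)
    (h : ∀ i ∈ t, g i ≠ 0) :
    rootMultiplicity x (∏ i ∈ t, g i) = ∑ i ∈ t, rootMultiplicity x (g i) := by
  classical
  induction t using Finset.induction_on with
  | empty => simp
  | insert a t ha ih =>
    rw [Finset.prod_insert ha, Finset.sum_insert ha, rootMultiplicity_mul, ih]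
    · intro i hi
      exact h i (Finset.mem_insert_of_mem hi)
    · exact mul_ne_zero (h a (Finset.mem_insert_self a t))
        (Finset.prod_ne_zero_iff.2 fun i hi => h i (Finset.mem_insert_of_mem hi))

omit [Fintype F] in
theorem starA_mult (hℓ : ℓ.Prime) (L : Polynomial F) (c : Fin s → F)
    (hd : ∀ i, ∀ π ∈ primes (L - C (c i)), ¬ ℓ ∣ π.natDegree) :
    rootMultiplicity 1 ((starA L c).map (Int.castRingHom (ZMod ℓ))) =
      ∑ i, (primes (L - C (c i))).card := by
  have : Fact ℓ.Prime := ⟨hℓ⟩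
  have hne : ∀ i, ∀ π ∈ primes (L - C (c i)), (1 : (ZMod ℓ)[X]) - X ^ π.natDegree ≠ 0 := by
    intro i π hπ h
    have h4 := congrArg (coeff · 0) h
    have hd := (irreducible_of_mem hπ).natDegree_pos
    simp [hd.ne, coeff_X_pow] at h4
  unfold starA
  rw [Polynomial.map_prod]
  simp only [Polynomial.map_prod, Polynomial.map_sub, Polynomial.map_one, Polynomial.map_pow,
    Polynomial.map_X]
  rw [rootMult_prod]
  · refine Finset.sum_congr rfl fun i _ => ?_
    rw [rootMult_prod _ _ _ (hne i), Finset.card_eq_sum_ones]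
    exact Finset.sum_congr rfl fun π hπ => rootMult_one_sub_pow hℓ (hd i π hπ)
  · intro i _
    exact Finset.prod_ne_zero_iff.2 (hne i)

omit [Fintype F] in
theorem primes_irreducible {h : Polynomial F} (hi : Irreducible h) :
    ∃ π, primes h = {π} ∧ π.natDegree = h.natDegree := by
  classical
  refine ⟨normalize h, ?_, ?_⟩
  · unfold primes
    rw [UniqueFactorizationMonoid.normalizedFactors_irreducible hi]
    rfl
  · exact natDegree_eq_of_degree_eq (degree_eq_degree_of_associated (normalize_associated h))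

omit [Fintype F] in
/-- If all `L - c i` are irreducible of degree prime to `ℓ` then `P(1)` is prime to `ℓ`. -/
theorem star_eval (hℓ : ℓ.Prime) (L : Polynomial F) (c : Fin s → F)
    (hirr : ∀ i, Irreducible (L - C (c i))) (hd : ∀ i, ¬ ℓ ∣ (L - C (c i)).natDegree)
    {P : ℤ[X]} {M : ℕ}
    (h : P.map (Int.castRingHom (ZMod ℓ)) * ((1 - X) ^ s) ^ M =
      (starA L c).map (Int.castRingHom (ZMod ℓ)) ^ M) :
    (P.map (Int.castRingHom (ZMod ℓ))).eval 1 ≠ 0 := by
  have : Fact ℓ.Prime := ⟨hℓ⟩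
  choose π hπ hπd using fun i => primes_irreducible (hirr i)
  have hA : (starA L c).map (Int.castRingHom (ZMod ℓ)) =
      (∏ i, ∑ j ∈ Finset.range (π i).natDegree, (X : (ZMod ℓ)[X]) ^ j) * (1 - X) ^ s := by
    unfold starA
    simp only [hπ, Finset.prod_singleton, Polynomial.map_prod, Polynomial.map_sub,
      Polynomial.map_one, Polynomial.map_pow, Polynomial.map_X]
    simp only [one_sub_pow, Finset.prod_mul_distrib, Finset.prod_const, Finset.card_univ,
      Fintype.card_fin]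
  rw [hA, mul_pow] at h
  have h1 := mul_right_cancel₀ (pow_ne_zero M (pow_ne_zero s (one_sub_ne (R := ZMod ℓ)))) h
  rw [h1, eval_pow, eval_prod]
  apply pow_ne_zero
  rw [Finset.prod_ne_zero_iff]
  intro i _
  rw [eval_geom]
  intro h2
  apply hd i
  rw [← hπd i]
  exact (ZMod.natCast_eq_zero_iff _ ℓ).1 h2

end

end Pool.Agent.Helper66.ZC
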