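import Pool.Agent.Helper66.ZC.Cycles

/-!
# Effective zero cycles on a free cyclic cover of prime power degree
-/

open Finset

namespace Pool.Agent.Helper66.ZC

variable {X Y : Type}

/-- `π : X → Y` is a free cyclic cover of degree `m` with deck transformation `σ`,
compatible with the permutations `φ` of `X` and `ψ` of `Y`. -/
structure IsCover (φ : Equiv.Perm X) (ψ : Equiv.Perm Y) (σ : Equiv.Perm X) (π : X → Y)
    (m : ℕ) : Prop where
  surj : Function.Surjective π
  comm : ∀ x, σ (φ x) = φ (σ x)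
  equi : ∀ x, π (φ x) = ψ (π x)
  pow_m : σ ^ m = 1
  free : ∀ x, ∀ i, 0 < i → i < m → (σ ^ i) x ≠ x
  inv : ∀ x, π (σ x) = π x
  trans : ∀ x x', π x = π x' → ∃ i < m, (σ ^ i) x = x'

variable {φ : Equiv.Perm X} {ψ : Equiv.Perm Y} {σ : Equiv.Perm X} {π : X → Y} {m : ℕ}

theorem IsCover.inv_pow (h : IsCover φ ψ σ π m) (i : ℕ) (x : X) : π ((σ ^ i) x) = π x := by
  induction i with
  | zero => rfl
  | succ i ih => rw [pow_succ', Equiv.Perm.mul_apply, h.inv, ih]

theorem IsCover.inj (h : IsCover φ ψ σ π m) (x : X) {i j : ℕ} (hi : i < m) (hj : j < m)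
    (he : (σ ^ i) x = (σ ^ j) x) : i = j := by
  have key : ∀ a b : ℕ, a < b → b < m → (σ ^ a) x ≠ (σ ^ b) x := by
    intro a b hab hb h1
    have h2 : (σ ^ b) x = (σ ^ a) ((σ ^ (b - a)) x) := by
      rw [← Equiv.Perm.mul_apply, ← pow_add]
      congr 2
      omega
    rw [h2] at h1
    exact h.free x (b - a) (by omega) (by omega) ((σ ^ a).injective h1).symm
  rcases Nat.lt_trichotomy i j with h1 | h1 | h1
  · exact absurd he (key i j h1 hj)
  · exact h1
  · exact absurd he.symm (key j i h1 hi)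

/-- Pull back of cycles. -/
theorem IsCover.finite_lift (h : IsCover φ ψ σ π m) (D : Y →₀ ℕ) :
    (Function.support fun x => D (π x)).Finite := by
  classical
  choose s hs using h.surj
  refine Set.Finite.subset ((D.support.product (range m)).image
    (fun t => (σ ^ t.2) (s t.1))).finite_toSet ?_
  intro x hx
  rw [Function.mem_support] at hx
  obtain ⟨i, hi, hx'⟩ := h.trans (s (π x)) x (hs (π x))
  rw [mem_coe, mem_image]
  exact ⟨(π x, i), by
    rw [product_eq_sprod, mem_product]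
    exact ⟨Finsupp.mem_support_iff.2 hx, mem_range.2 hi⟩, hx'⟩

/-- Pull back of cycles. -/
noncomputable def IsCover.lift (h : IsCover φ ψ σ π m) (D : Y →₀ ℕ) : X →₀ ℕ :=
  Finsupp.ofSupportFinite (fun x => D (π x)) (h.finite_lift D)

theorem IsCover.lift_apply (h : IsCover φ ψ σ π m) (D : Y →₀ ℕ) (x : X) :
    h.lift D x = D (π x) := rfl

theorem IsCover.lift_injective (h : IsCover φ ψ σ π m) : Function.Injective h.lift := by
  intro D D' hD
  ext y
  obtain ⟨x, rfl⟩ := h.surj y
  rw [← h.lift_apply, ← h.lift_apply, hD]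

theorem IsCover.degree_lift (h : IsCover φ ψ σ π m) (D : Y →₀ ℕ) :
    (h.lift D).degree = m * D.degree := by
  classical
  rw [Finsupp.degree_apply, Finsupp.degree_apply]
  have hmaps : ∀ x ∈ (h.lift D).support, π x ∈ D.support := by
    intro x hx
    rw [Finsupp.mem_support_iff] at hx ⊢
    exact hx
  rw [← sum_fiberwise_of_maps_to hmaps, mul_sum]
  refine sum_congr rfl fun y hy => ?_
  have h1 : ∀ x ∈ (h.lift D).support.filter (fun x => π x = y), h.lift D x = D y := by
    intro x hx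
    rw [mem_filter] at hx
    rw [h.lift_apply, hx.2]
  rw [sum_congr rfl h1, sum_const, smul_eq_mul]
  congr 1
  obtain ⟨x0, rfl⟩ := h.surj y
  have h2 : (h.lift D).support.filter (fun x => π x = π x0) =
      (range m).image (fun i => (σ ^ i) x0) := by
    ext x
    rw [mem_filter, mem_image]
    constructor
    · rintro ⟨_, hx⟩
      obtain ⟨i, hi, he⟩ := h.trans x0 x hx.symm
      exact ⟨i, mem_range.2 hi, he⟩
    · rintro ⟨i, _, rfl⟩
      have h3 := h.inv_pow i x0
      refine ⟨?_, h3⟩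
      rw [Finsupp.mem_support_iff, h.lift_apply, h3]
      exact Finsupp.mem_support_iff.1 hy
  rw [h2, card_image_of_injOn, card_range]
  intro i hi j hj he
  rw [mem_coe, mem_range] at hi hj
  exact h.inj x0 hi hj he

theorem IsCover.lift_mem (h : IsCover φ ψ σ π m) {n : ℕ} {D : Y →₀ ℕ} (hD : D ∈ Cyc ψ n) :
    h.lift D ∈ Cyc φ (m * n) := by
  refine ⟨fun x => ?_, ?_⟩
  · rw [h.lift_apply, h.lift_apply, h.equi, hD.1]
  · rw [h.degree_lift, hD.2]

theorem IsCover.exists_lift (h : IsCover φ ψ σ π m) (hm : 0 < m) {n : ℕ} {E : X →₀ ℕ}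
    (hE : E ∈ Cyc φ n) (hσ : ∀ x, E (σ x) = E x) :
    ∃ D ∈ Cyc ψ (n / m), h.lift D = E ∧ m ∣ n := by
  classical
  choose s hs using h.surj
  have hEs : ∀ x, E (s (π x)) = E x := by
    intro x
    obtain ⟨i, _, he⟩ := h.trans (s (π x)) x (hs (π x))
    have h1 := ZC.inv_pow hσ i (s (π x))
    rw [he] at h1
    exact h1.symm
  have hfin : (Function.support fun y => E (s y)).Finite := by
    refine Set.Finite.subset (E.support.image π).finite_toSet ?_
    intro y hy
    rw [Function.mem_support] at hy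
    rw [mem_coe, mem_image]
    exact ⟨s y, Finsupp.mem_support_iff.2 hy, hs y⟩
  set D : Y →₀ ℕ := Finsupp.ofSupportFinite (fun y => E (s y)) hfin with hD
  have hDa : ∀ y, D y = E (s y) := fun y => rfl
  have hlift : h.lift D = E := by
    ext x
    rw [h.lift_apply, hDa, hEs]
  have hdeg : m * D.degree = n := by
    rw [← h.degree_lift, hlift, hE.2]
  refine ⟨D, ⟨fun y => ?_, ?_⟩, hlift, ⟨D.degree, hdeg.symm⟩⟩
  · obtain ⟨x, rfl⟩ := h.surj y
    rw [← h.equi, hDa, hDa, hEs, hEs, hE.1]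
  · rw [← hdeg, Nat.mul_div_cancel_left _ hm]

/-- The number of effective cycles upstairs, modulo `ℓ`. -/
theorem IsCover.cycNum_modEq {ℓ r : ℕ} (hℓ : ℓ.Prime) (h : IsCover φ ψ σ π (ℓ ^ r))
    (hφ : FinFix φ) (n : ℕ) :
    cycNum φ n ≡ (if ℓ ^ r ∣ n then cycNum ψ (n / ℓ ^ r) else 0) [MOD ℓ] := by
  classical
  have : Fact ℓ.Prime := ⟨hℓ⟩
  have hm : 0 < ℓ ^ r := pow_pos hℓ.pos r
  have : Fintype (Cyc φ n) := (cyc_finite hφ n).fintype
  -- the action of the deck transformation on cycles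
  have hmem : ∀ D : X →₀ ℕ, D ∈ Cyc φ n → Finsupp.equivMapDomain σ D ∈ Cyc φ n := by
    intro D hD
    refine ⟨fun x => ?_, ?_⟩
    · rw [Finsupp.equivMapDomain_apply, Finsupp.equivMapDomain_apply]
      have h1 : σ.symm (φ x) = φ (σ.symm x) := by
        rw [Equiv.symm_apply_eq, h.comm, Equiv.apply_symm_apply]
      rw [h1, hD.1]
    · rw [Finsupp.equivMapDomain_eq_mapDomain, Finsupp.degree_mapDomain, hD.2]
  let S : Function.End (Cyc φ n) := fun D => ⟨Finsupp.equivMapDomain σ D.1, hmem D.1 D.2⟩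
  have hSpow : ∀ (i : ℕ) (D : Cyc φ n) (x : X), ((S ^ i) D).1 ((σ ^ i) x) = D.1 x := by
    intro i
    induction i with
    | zero => intro D x; rfl
    | succ i ih =>
      intro D x
      rw [pow_succ']
      change (Finsupp.equivMapDomain σ ((S ^ i) D).1) ((σ ^ (i + 1)) x) = D.1 x
      rw [Finsupp.equivMapDomain_apply, pow_succ', Equiv.Perm.mul_apply,
        Equiv.symm_apply_apply, ih]
  have hS : S ^ (ℓ ^ r) = 1 := by
    funext D
    apply Subtype.ext
    ext x
    have h1 := hSpow (ℓ ^ r) D x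
    rw [h.pow_m] at h1
    exact h1
  have hmod := Equiv.Perm.card_fixedPoints_modEq (p := ℓ) (n := r) hS
  have hcard : Fintype.card (Cyc φ n) = cycNum φ n := by
    rw [cycNum, ← Nat.card_coe_set_eq, Nat.card_eq_fintype_card]
  rw [hcard] at hmod
  refine hmod.trans ?_
  have hfix : ∀ D : Cyc φ n, S D = D ↔ ∀ x, D.1 (σ x) = D.1 x := by
    intro D
    constructor
    · intro hD x
      have h1 := congrArg (fun E : Cyc φ n => E.1 (σ x)) hD
      change Finsupp.equivMapDomain σ D.1 (σ x) = D.1 (σ x) at h1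
      rw [Finsupp.equivMapDomain_apply, Equiv.symm_apply_apply] at h1
      exact h1.symm
    · intro hD
      apply Subtype.ext
      ext x
      change Finsupp.equivMapDomain σ D.1 x = D.1 x
      rw [Finsupp.equivMapDomain_apply]
      have h1 := hD (σ.symm x)
      rw [Equiv.apply_symm_apply] at h1
      exact h1.symm
  have hfin : Fintype.card (Function.fixedPoints S) =
      ({D | D ∈ Cyc φ n ∧ ∀ x, D (σ x) = D x} : Set (X →₀ ℕ)).ncard := by
    rw [← Nat.card_coe_set_eq, ← Nat.card_eq_fintype_card]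
    refine Nat.card_congr ?_
    exact
      { toFun := fun D => ⟨D.1.1, D.1.2, (hfix D.1).1 D.2⟩
        invFun := fun E => ⟨⟨E.1, E.2.1⟩, (hfix ⟨E.1, E.2.1⟩).2 E.2.2⟩
        left_inv := fun D => rfl
        right_inv := fun E => rfl }
  rw [hfin]
  by_cases hd : ℓ ^ r ∣ n
  · rw [if_pos hd]
    have himg : ({D | D ∈ Cyc φ n ∧ ∀ x, D (σ x) = D x} : Set (X →₀ ℕ)) =
        h.lift '' (Cyc ψ (n / ℓ ^ r)) := by
      ext E
      constructor
      · rintro ⟨h1, h2⟩
        obtain ⟨D, hD, he, _⟩ := h.exists_lift hm h1 h2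
        exact ⟨D, hD, he⟩
      · rintro ⟨D, hD, rfl⟩
        refine ⟨?_, fun x => ?_⟩
        · have := h.lift_mem hD
          rwa [Nat.mul_div_cancel' hd] at this
        · rw [h.lift_apply, h.lift_apply, h.inv]
    rw [himg, Set.ncard_image_of_injective _ h.lift_injective, cycNum]
  · rw [if_neg hd]
    have hemp : ({D | D ∈ Cyc φ n ∧ ∀ x, D (σ x) = D x} : Set (X →₀ ℕ)) = ∅ := by
      ext E
      constructor
      · rintro ⟨h1, h2⟩
        obtain ⟨_, _, _, hdv⟩ := h.exists_lift hm h1 h2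
        exact absurd hdv hd
      · intro hE; exact hE.elim
    rw [hemp, Set.ncard_empty]

end Pool.Agent.Helper66.ZC
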