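import Mathlib

/-!
# Effective zero cycles of a permutation with finitely many periodic points

For a permutation `φ` of a set `X` the effective zero cycles of degree `n` are the finitely
supported functions `D : X → ℕ` of degree `n` with `D ∘ φ = D`.  If every power of `φ` has
finitely many fixed points then `n a_n = ∑ N_k a_{n-k}`, where `N_k` is the number of fixed
points of `φ ^ k` and `a_n` is the number of effective cycles of degree `n`.
-/

open Finset

namespace Pool.Agent.Helper66.ZC

variable {X : Type}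

/-- Effective zero cycles of degree `n`. -/
def Cyc (φ : Equiv.Perm X) (n : ℕ) : Set (X →₀ ℕ) :=
  {D | (∀ x, D (φ x) = D x) ∧ D.degree = n}

/-- Every positive power of `φ` has finitely many fixed points. -/
def FinFix (φ : Equiv.Perm X) : Prop := ∀ k : ℕ, 0 < k → {x | (φ ^ k) x = x}.Finite

theorem inv_pow {φ : Equiv.Perm X} {D : X →₀ ℕ} (h : ∀ x, D (φ x) = D x) (i : ℕ) (x : X) :
    D ((φ ^ i) x) = D x := by
  induction i with
  | zero => rfl
  | succ i ih => rw [pow_succ', Equiv.Perm.mul_apply, h, ih]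

theorem card_support_le_degree (D : X →₀ ℕ) : D.support.card ≤ D.degree := by
  rw [Finsupp.degree_apply, card_eq_sum_ones]
  refine sum_le_sum fun i hi => ?_
  have := Finsupp.mem_support_iff.1 hi
  omega

theorem exists_period {φ : Equiv.Perm X} {n : ℕ} {D : X →₀ ℕ} (hD : D ∈ Cyc φ n) {x : X}
    (hx : D x ≠ 0) : ∃ k, 0 < k ∧ k ≤ n ∧ (φ ^ k) x = x := by
  classical
  have hmap : ∀ i ∈ range (n + 1), (φ ^ i) x ∈ D.support := by
    intro i _
    rw [Finsupp.mem_support_iff, inv_pow hD.1]
    exact hx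
  have hcard : D.support.card < (range (n + 1)).card := by
    rw [card_range]
    have := card_support_le_degree D
    rw [hD.2] at this
    omega
  obtain ⟨i, hi, j, hj, hij, he⟩ := exists_ne_map_eq_of_card_lt_of_maps_to hcard hmap
  rw [mem_range] at hi hj
  have key : ∀ a b : ℕ, a < b → (φ ^ a) x = (φ ^ b) x → (φ ^ (b - a)) x = x := by
    intro a b hab h
    have h1 : (φ ^ b) x = (φ ^ a) ((φ ^ (b - a)) x) := by
      rw [← Equiv.Perm.mul_apply, ← pow_add]
      congr 2
      omega
    rw [h1] at h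
    exact ((φ ^ a).injective h).symm
  rcases Nat.lt_or_ge i j with h | h
  · exact ⟨j - i, by omega, by omega, key i j h he⟩
  · exact ⟨i - j, by omega, by omega, key j i (by omega) he.symm⟩

/-- The finite set of points of period at most `n`. -/
noncomputable def pts (φ : Equiv.Perm X) (hφ : FinFix φ) (n : ℕ) : Finset X := by
  classical
  exact (range n).biUnion fun k => (hφ (k + 1) (Nat.succ_pos k)).toFinset

theorem mem_pts {φ : Equiv.Perm X} {hφ : FinFix φ} {n : ℕ} {x : X} :
    x ∈ pts φ hφ n ↔ ∃ k, k < n ∧ (φ ^ (k + 1)) x = x := by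
  unfold pts
  simp

theorem cyc_finite {φ : Equiv.Perm X} (hφ : FinFix φ) (n : ℕ) : (Cyc φ n).Finite := by
  classical
  refine ((pts φ hφ n).finsupp (fun _ => range (n + 1))).finite_toSet.subset ?_
  intro D hD
  rw [mem_coe, mem_finsupp_iff]
  refine ⟨?_, ?_⟩
  · intro x hx
    obtain ⟨k, h0, h1, h2⟩ := exists_period hD (Finsupp.mem_support_iff.1 hx)
    rw [mem_pts]
    exact ⟨k - 1, by omega, by rw [Nat.sub_add_cancel h0]; exact h2⟩
  · intro x _
    rw [mem_range]
    have := Finsupp.le_degree x D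
    rw [hD.2] at this
    omega

/-- The number of effective cycles of degree `n`. -/
noncomputable def cycNum (φ : Equiv.Perm X) (n : ℕ) : ℕ := (Cyc φ n).ncard

/-- The number of fixed points of `φ ^ k`. -/
noncomputable def fixNum (φ : Equiv.Perm X) (k : ℕ) : ℕ := {x | (φ ^ k) x = x}.ncard

/-- The orbit of a point, as a cycle. -/
noncomputable def orb (φ : Equiv.Perm X) (x : X) : X →₀ ℕ :=
  ∑ i ∈ range (Function.minimalPeriod φ x), Finsupp.single ((φ ^ i) x) 1

theorem degree_orb (φ : Equiv.Perm X) (x : X) :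
    (orb φ x).degree = Function.minimalPeriod φ x := by
  unfold orb
  rw [map_sum]
  simp

theorem pow_eq_iterate (φ : Equiv.Perm X) (i : ℕ) (x : X) : (φ ^ i) x = φ^[i] x := by
  rw [Equiv.Perm.iterate_eq_pow]

theorem orb_apply [DecidableEq X] (φ : Equiv.Perm X) (x y : X) :
    orb φ x y = ((range (Function.minimalPeriod φ x)).filter (fun i => (φ ^ i) x = y)).card := by
  unfold orb
  rw [Finsupp.finsetSum_apply, card_filter]
  refine sum_congr rfl fun i _ => ?_
  rw [Finsupp.single_apply]

theorem orb_le_one (φ : Equiv.Perm X) (x y : X) : orb φ x y ≤ 1 := by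
  classical
  rw [orb_apply, card_le_one]
  intro i hi j hj
  simp only [mem_filter, mem_range] at hi hj
  have h : φ^[i] x = φ^[j] x := by
    rw [← pow_eq_iterate, ← pow_eq_iterate, hi.2, hj.2]
  exact (Function.iterate_injOn_Iio_minimalPeriod (f := φ) (x := x)) hi.1 hj.1 h

theorem orb_ne_zero {φ : Equiv.Perm X} {x y : X} (h : orb φ x y ≠ 0) :
    ∃ i : ℕ, (φ ^ i) x = y := by
  classical
  rw [orb_apply, ← Nat.pos_iff_ne_zero, card_pos] at h
  obtain ⟨i, hi⟩ := h
  exact ⟨i, (mem_filter.1 hi).2⟩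

theorem orb_self {φ : Equiv.Perm X} {x : X} (h : 0 < Function.minimalPeriod φ x) :
    orb φ x x = 1 := by
  classical
  refine le_antisymm (orb_le_one _ _ _) ?_
  rw [orb_apply, Nat.succ_le_iff, card_pos]
  exact ⟨0, by simp [h]⟩

theorem orb_pow {φ : Equiv.Perm X} {x : X} (h : 0 < Function.minimalPeriod φ x) (i : ℕ) :
    orb φ x ((φ ^ i) x) = 1 := by
  classical
  refine le_antisymm (orb_le_one _ _ _) ?_
  rw [orb_apply, Nat.succ_le_iff, card_pos]
  refine ⟨i % Function.minimalPeriod φ x, ?_⟩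
  rw [mem_filter, mem_range]
  refine ⟨Nat.mod_lt _ h, ?_⟩
  rw [pow_eq_iterate, pow_eq_iterate]
  exact Function.iterate_mod_minimalPeriod_eq

theorem orb_inv {φ : Equiv.Perm X} {x : X} (h : 0 < Function.minimalPeriod φ x) (y : X) :
    orb φ x (φ y) = orb φ x y := by
  by_cases h1 : orb φ x y = 0
  · rw [h1]
    by_contra h2
    obtain ⟨i, hi⟩ := orb_ne_zero h2
    -- `φ y = φ ^ i x`, so `y` is in the orbit
    apply absurd h1
    have h3 : y = (φ ^ (i + (Function.minimalPeriod φ x - 1))) x := by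
      apply φ.injective
      rw [← hi, ← Equiv.Perm.mul_apply φ, ← pow_succ',
        show i + (Function.minimalPeriod φ x - 1) + 1 = i + Function.minimalPeriod φ x by omega,
        pow_add, Equiv.Perm.mul_apply]
      congr 1
      rw [pow_eq_iterate, Function.iterate_minimalPeriod]
    rw [h3, orb_pow h]
    exact one_ne_zero
  · obtain ⟨i, hi⟩ := orb_ne_zero h1
    rw [← hi, orb_pow h, ← Equiv.Perm.mul_apply, ← pow_succ', orb_pow h]

theorem orb_le {φ : Equiv.Perm X} {D : X →₀ ℕ} (hD : ∀ x, D (φ x) = D x) {x : X} {j : ℕ}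
    (hj : j ≤ D x) : j • orb φ x ≤ D := by
  intro y
  rw [Finsupp.smul_apply, smul_eq_mul]
  by_cases h : orb φ x y = 0
  · rw [h]; simp
  · obtain ⟨i, rfl⟩ := orb_ne_zero h
    rw [inv_pow hD]
    calc j * orb φ x ((φ ^ i) x) ≤ j * 1 := Nat.mul_le_mul_left _ (orb_le_one _ _ _)
      _ ≤ D x := by rw [mul_one]; exact hj

theorem period_pos {φ : Equiv.Perm X} {k : ℕ} (hk : 0 < k) {x : X} (h : (φ ^ k) x = x) :
    0 < Function.minimalPeriod φ x := by
  apply Function.minimalPeriod_pos_of_mem_periodicPts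
  refine ⟨k, hk, ?_⟩
  rw [Function.IsPeriodicPt, Function.IsFixedPt, ← pow_eq_iterate]
  exact h

theorem period_dvd {φ : Equiv.Perm X} {k : ℕ} {x : X} (h : (φ ^ k) x = x) :
    Function.minimalPeriod φ x ∣ k := by
  apply Function.IsPeriodicPt.minimalPeriod_dvd
  rw [Function.IsPeriodicPt, Function.IsFixedPt, ← pow_eq_iterate]
  exact h

theorem pow_period (φ : Equiv.Perm X) (x : X) (j : ℕ) :
    (φ ^ (j * Function.minimalPeriod φ x)) x = x := by
  rw [pow_eq_iterate]
  exact ((Function.isPeriodicPt_minimalPeriod φ x).const_mul j)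

/-- The basic recursion. -/
theorem cyc_rec {φ : Equiv.Perm X} (hφ : FinFix φ) (n : ℕ) :
    n * cycNum φ n = ∑ k ∈ range n, fixNum φ (k + 1) * cycNum φ (n - (k + 1)) := by
  classical
  set C : ℕ → Finset (X →₀ ℕ) := fun n => (cyc_finite hφ n).toFinset with hC
  have hCn : ∀ n, (C n).card = cycNum φ n := by
    intro n
    rw [cycNum, Set.ncard_eq_toFinset_card _ (cyc_finite hφ n)]
  set Fx : ℕ → Finset X := fun k => (hφ (k + 1) (Nat.succ_pos k)).toFinset with hF
  have hFn : ∀ k, (Fx k).card = fixNum φ (k + 1) := by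
    intro k
    rw [fixNum, Set.ncard_eq_toFinset_card _ (hφ (k + 1) (Nat.succ_pos k))]
  have memC : ∀ n D, D ∈ C n ↔ D ∈ Cyc φ n := by
    intro n D; simp [hC]
  have memF : ∀ k x, x ∈ Fx k ↔ (φ ^ (k + 1)) x = x := by
    intro k x; simp [hF]
  have hL : ((C n).sigma fun D => D.support.sigma fun x => range (D x)).card =
      n * cycNum φ n := by
    rw [card_sigma, ← hCn, mul_comm, ← smul_eq_mul, ← sum_const]
    refine sum_congr rfl fun D hD => ?_
    rw [card_sigma]
    simp only [card_range]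
    rw [← Finsupp.degree_apply]
    exact ((memC _ _).1 hD).2
  have hR : ((range n).sigma fun k => Fx k ×ˢ C (n - (k + 1))).card =
      ∑ k ∈ range n, fixNum φ (k + 1) * cycNum φ (n - (k + 1)) := by
    rw [card_sigma]
    refine sum_congr rfl fun k _ => ?_
    rw [card_product, hFn, hCn]
  rw [← hL, ← hR]
  refine card_bij'
    (i := fun (t : Σ _ : X →₀ ℕ, Σ _ : X, ℕ) _ =>
      (⟨(t.2.2 + 1) * Function.minimalPeriod φ t.2.1 - 1,
        (t.2.1, t.1 - (t.2.2 + 1) • orb φ t.2.1)⟩ : Σ _ : ℕ, X × (X →₀ ℕ)))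
    (j := fun (s : Σ _ : ℕ, X × (X →₀ ℕ)) _ =>
      (⟨s.2.2 + ((s.1 + 1) / Function.minimalPeriod φ s.2.1) • orb φ s.2.1,
        ⟨s.2.1, (s.1 + 1) / Function.minimalPeriod φ s.2.1 - 1⟩⟩ :
          Σ _ : X →₀ ℕ, Σ _ : X, ℕ)) ?_ ?_ ?_ ?_
  · rintro ⟨D, x, j⟩ ht
    simp only [mem_sigma, mem_range, memC] at ht
    obtain ⟨hD, hx, hj⟩ := ht
    have hx' := Finsupp.mem_support_iff.1 hx
    obtain ⟨k, hk0, hkn, hkx⟩ := exists_period hD hx'
    have hp := period_pos hk0 hkx
    have hle : (j + 1) • orb φ x ≤ D := orb_le hD.1 hj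
    have hdeg : (D - (j + 1) • orb φ x).degree + (j + 1) * Function.minimalPeriod φ x = n := by
      have := congrArg Finsupp.degree (tsub_add_cancel_of_le hle)
      rw [map_add, map_nsmul, degree_orb, hD.2, smul_eq_mul] at this
      exact this
    have hpos : 0 < (j + 1) * Function.minimalPeriod φ x := Nat.mul_pos (Nat.succ_pos j) hp
    simp only [mem_sigma, mem_range, mem_product, memC, memF]
    refine ⟨by omega, ?_, ?_, ?_⟩
    · rw [Nat.sub_add_cancel hpos]
      exact pow_period φ x (j + 1)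
    · intro y
      rw [Finsupp.tsub_apply, Finsupp.tsub_apply, Finsupp.smul_apply, Finsupp.smul_apply,
        orb_inv hp, hD.1]
    · rw [Nat.sub_add_cancel hpos]
      omega
  · rintro ⟨k, x, D⟩ hs
    simp only [mem_sigma, mem_range, mem_product, memC, memF] at hs
    obtain ⟨hk, hx, hD⟩ := hs
    have hp := period_pos (Nat.succ_pos k) hx
    have hdvd := period_dvd hx
    have hq : 0 < (k + 1) / Function.minimalPeriod φ x :=
      Nat.div_pos (Nat.le_of_dvd (Nat.succ_pos k) hdvd) hp
    have hmul : (k + 1) / Function.minimalPeriod φ x * Function.minimalPeriod φ x = k + 1 :=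
      Nat.div_mul_cancel hdvd
    have hval : (D + ((k + 1) / Function.minimalPeriod φ x) • orb φ x) x =
        D x + (k + 1) / Function.minimalPeriod φ x := by
      rw [Finsupp.add_apply, Finsupp.smul_apply, orb_self hp, smul_eq_mul, mul_one]
    simp only [mem_sigma, mem_range, memC]
    refine ⟨⟨?_, ?_⟩, ?_, ?_⟩
    · intro y
      rw [Finsupp.add_apply, Finsupp.add_apply, Finsupp.smul_apply, Finsupp.smul_apply,
        orb_inv hp, hD.1]
    · rw [map_add, map_nsmul, degree_orb, hD.2, smul_eq_mul, hmul]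
      omega
    · rw [Finsupp.mem_support_iff, hval]
      omega
    · rw [hval]
      omega
  · rintro ⟨D, x, j⟩ ht
    simp only [mem_sigma, mem_range, memC] at ht
    obtain ⟨hD, hx, hj⟩ := ht
    have hx' := Finsupp.mem_support_iff.1 hx
    obtain ⟨k, hk0, hkn, hkx⟩ := exists_period hD hx'
    have hp := period_pos hk0 hkx
    have hle : (j + 1) • orb φ x ≤ D := orb_le hD.1 hj
    have hpos : 0 < (j + 1) * Function.minimalPeriod φ x := Nat.mul_pos (Nat.succ_pos j) hp
    have hdiv : ((j + 1) * Function.minimalPeriod φ x - 1 + 1) / Function.minimalPeriod φ x =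
        j + 1 := by
      rw [Nat.sub_add_cancel hpos, Nat.mul_div_cancel _ hp]
    simp only [hdiv, tsub_add_cancel_of_le hle, Nat.add_sub_cancel]
  · rintro ⟨k, x, D⟩ hs
    simp only [mem_sigma, mem_range, mem_product, memC, memF] at hs
    obtain ⟨hk, hx, hD⟩ := hs
    have hp := period_pos (Nat.succ_pos k) hx
    have hdvd := period_dvd hx
    have hq : 0 < (k + 1) / Function.minimalPeriod φ x :=
      Nat.div_pos (Nat.le_of_dvd (Nat.succ_pos k) hdvd) hp
    have hmul : (k + 1) / Function.minimalPeriod φ x * Function.minimalPeriod φ x = k + 1 :=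
      Nat.div_mul_cancel hdvd
    have h1 : (k + 1) / Function.minimalPeriod φ x - 1 + 1 =
        (k + 1) / Function.minimalPeriod φ x := Nat.sub_add_cancel hq
    simp only [h1, hmul, add_tsub_cancel_right]

end Pool.Agent.Helper66.ZC
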