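import Mathlib

/-!
# Zeta functions of affine varieties over a finite field and of their cyclic covers

`F` is a finite field with `q` elements.  Points have coordinates in the algebraic closure of
`F`; a point is defined over the extension of degree `k` of `F` if all its coordinates satisfy
`x ^ (q ^ k) = x`.
-/

open PowerSeries

namespace Pool.Agent.Helper66.ZC

/-- The zeta function `exp (∑_{k ≥ 1} N_k T^k / k)` of a sequence of numbers `N_k`
(the term with `k = 0` is `0` because `N_0 / 0 = 0` in Lean). -/
noncomputable def zeta (N : ℕ → ℕ) : ℚ⟦X⟧ :=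
  (PowerSeries.exp ℚ).subst (PowerSeries.mk fun k => (N k : ℚ) / (k : ℚ))

variable (F : Type) [Field F] [Fintype F]

/-- The number of points of `Z` defined over the extension of degree `k` of `F`. -/
noncomputable def numPts {n : ℕ} (Z : Set (Fin n → AlgebraicClosure F)) (k : ℕ) : ℕ :=
  {v | v ∈ Z ∧ ∀ i, v i ^ (Fintype.card F ^ k) = v i}.ncard

variable {F}

/-- The closed subvariety of affine `n`-space defined by the polynomials in `I`. -/
def zeroLocus {n : ℕ} (I : Set (MvPolynomial (Fin n) F)) :
    Set (Fin n → AlgebraicClosure F) := {v | ∀ g ∈ I, MvPolynomial.aeval v g = 0}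

/-- The open set `f ≠ 0` of the variety defined by `I`. -/
def openSet {n : ℕ} (I : Set (MvPolynomial (Fin n) F)) (f : MvPolynomial (Fin n) F) :
    Set (Fin n → AlgebraicClosure F) := {v | v ∈ zeroLocus I ∧ MvPolynomial.aeval v f ≠ 0}

/-- The étale cyclic cover `w ^ m = f`, `f ≠ 0`, of the open set `f ≠ 0`: the coordinate `w`
is `v 0`, the other coordinates `Fin.tail v` are those of the point of the base. -/
def coverSet {n : ℕ} (I : Set (MvPolynomial (Fin n) F)) (f : MvPolynomial (Fin n) F) (m : ℕ) :
    Set (Fin (n + 1) → AlgebraicClosure F) :=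
  {v | Fin.tail v ∈ openSet I f ∧ v 0 ^ m = MvPolynomial.aeval (Fin.tail v) f}

/-- The plane curve `f = 0`. -/
def curveSet (f : MvPolynomial (Fin 2) F) : Set (Fin 2 → AlgebraicClosure F) :=
  {v | MvPolynomial.aeval v f = 0}

/-- The surface `w ^ m = f(x, y)` in affine three-space: `w = v 0`, `(x, y) = Fin.tail v`. -/
def surfaceSet (f : MvPolynomial (Fin 2) F) (m : ℕ) : Set (Fin 3 → AlgebraicClosure F) :=
  {v | v 0 ^ m = MvPolynomial.aeval (Fin.tail v) f}

end Pool.Agent.Helper66.ZC
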