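import Pool.Agent.Helper66.ZC.Points

/-!
# The covers `w ^ m = f` are free cyclic covers
-/

open MvPolynomial

namespace Pool.Agent.Helper66.ZC

section

variable {F : Type} [Field F] [Fintype F] {n : ℕ}

theorem stable_zeroLocus (I : Set (MvPolynomial (Fin n) F)) : Stable (zeroLocus I) := by
  intro v
  constructor
  · intro h g hg
    have h1 := h g hg
    rw [aeval_frobPerm] at h1
    exact pow_eq_zero_iff (Fintype.card_ne_zero) |>.1 h1
  · intro h g hg
    rw [aeval_frobPerm, h g hg, zero_pow Fintype.card_ne_zero]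

theorem stable_openSet (I : Set (MvPolynomial (Fin n) F)) (f : MvPolynomial (Fin n) F) :
    Stable (openSet I f) := by
  intro v
  unfold openSet
  rw [Set.mem_ofPred_eq, Set.mem_ofPred_eq, stable_zeroLocus I v, aeval_frobPerm,
    pow_ne_zero_iff Fintype.card_ne_zero]

theorem tail_frobPerm (v : Fin (n + 1) → AlgebraicClosure F) :
    Fin.tail (frobPerm F (n + 1) v) = frobPerm F n (Fin.tail v) := rfl

theorem frob_injective : Function.Injective
    fun x : AlgebraicClosure F => x ^ Fintype.card F := by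
  intro x y h
  exact (FiniteField.frobeniusAlgEquivOfAlgebraic F (AlgebraicClosure F)).injective h

theorem stable_coverSet (I : Set (MvPolynomial (Fin n) F)) (f : MvPolynomial (Fin n) F) (m : ℕ) :
    Stable (coverSet I f m) := by
  intro v
  unfold coverSet
  rw [Set.mem_ofPred_eq, Set.mem_ofPred_eq, tail_frobPerm, stable_openSet I f (Fin.tail v),
    aeval_frobPerm, frobPerm_apply, ← pow_mul, mul_comm, pow_mul]
  constructor
  · rintro ⟨h1, h2⟩
    exact ⟨h1, frob_injective h2⟩
  · rintro ⟨h1, h2⟩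
    exact ⟨h1, by rw [h2]⟩

/-- A primitive root of unity of order `m` in the algebraic closure, fixed by Frobenius. -/
theorem exists_root {m : ℕ} (hm : m ∣ Fintype.card F - 1) :
    ∃ ζ : AlgebraicClosure F, IsPrimitiveRoot ζ m ∧ ζ ^ Fintype.card F = ζ := by
  classical
  have hq : 1 < Fintype.card F := Fintype.one_lt_card
  have hm0 : m ≠ 0 := by
    rintro rfl
    rw [zero_dvd_iff] at hm
    omega
  have hne : ((m : ℕ) : AlgebraicClosure F) ≠ 0 := by
    obtain ⟨c, hc⟩ := hm
    intro h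
    have h1 : ((Fintype.card F - 1 : ℕ) : AlgebraicClosure F) = 0 := by
      rw [hc, Nat.cast_mul, h, zero_mul]
    rw [Nat.cast_sub hq.le] at h1
    have h2 : ((Fintype.card F : ℕ) : AlgebraicClosure F) = 0 := by
      rw [← map_natCast (algebraMap F (AlgebraicClosure F)), FiniteField.cast_card_eq_zero,
        map_zero]
    rw [h2] at h1
    simp at h1
  have : NeZero ((m : ℕ) : AlgebraicClosure F) := ⟨hne⟩
  obtain ⟨ζ, hζ⟩ := HasEnoughRootsOfUnity.exists_primitiveRoot (AlgebraicClosure F) m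
  refine ⟨ζ, hζ, ?_⟩
  obtain ⟨c, hc⟩ := hm
  have h3 : Fintype.card F = m * c + 1 := by omega
  rw [h3, pow_succ, pow_mul, hζ.pow_eq_one, one_pow, one_mul]

/-- The deck transformation. -/
noncomputable def deckFun (ζ : AlgebraicClosure F) (v : Fin (n + 1) → AlgebraicClosure F) :
    Fin (n + 1) → AlgebraicClosure F := Fin.cons (ζ * v 0) (Fin.tail v)

omit [Fintype F] in
theorem deckFun_zero (ζ : AlgebraicClosure F) (v : Fin (n + 1) → AlgebraicClosure F) :
    deckFun ζ v 0 = ζ * v 0 := rfl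

omit [Fintype F] in
theorem deckFun_tail (ζ : AlgebraicClosure F) (v : Fin (n + 1) → AlgebraicClosure F) :
    Fin.tail (deckFun ζ v) = Fin.tail v := rfl

omit [Fintype F] in
theorem deckFun_deckFun (ζ η : AlgebraicClosure F) (v : Fin (n + 1) → AlgebraicClosure F) :
    deckFun ζ (deckFun η v) = deckFun (ζ * η) v := by
  unfold deckFun
  simp [mul_assoc]

omit [Fintype F] in
theorem deckFun_one (v : Fin (n + 1) → AlgebraicClosure F) : deckFun 1 v = v := by
  unfold deckFun
  rw [one_mul, Fin.cons_self_tail]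

omit [Fintype F] in
theorem deckFun_mem {I : Set (MvPolynomial (Fin n) F)} {f : MvPolynomial (Fin n) F} {m : ℕ}
    {ζ : AlgebraicClosure F} (hζ : ζ ^ m = 1) {v : Fin (n + 1) → AlgebraicClosure F}
    (hv : v ∈ coverSet I f m) : deckFun ζ v ∈ coverSet I f m := by
  refine ⟨hv.1, ?_⟩
  rw [deckFun_zero, deckFun_tail, mul_pow, hζ, one_mul]
  exact hv.2

/-- The deck transformation. -/
noncomputable def deck (I : Set (MvPolynomial (Fin n) F)) (f : MvPolynomial (Fin n) F) {m : ℕ}
    {ζ : AlgebraicClosure F} (hζ : IsPrimitiveRoot ζ m) (hm : m ≠ 0) :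
    Equiv.Perm {v // v ∈ coverSet I f m} where
  toFun v := ⟨deckFun ζ v.1, deckFun_mem hζ.pow_eq_one v.2⟩
  invFun v := ⟨deckFun ζ⁻¹ v.1, deckFun_mem (by rw [_root_.inv_pow, hζ.pow_eq_one, inv_one]) v.2⟩
  left_inv v := by
    apply Subtype.ext
    show deckFun ζ⁻¹ (deckFun ζ v.1) = v.1
    rw [deckFun_deckFun, inv_mul_cancel₀ (hζ.ne_zero hm), deckFun_one]
  right_inv v := by
    apply Subtype.ext
    show deckFun ζ (deckFun ζ⁻¹ v.1) = v.1
    rw [deckFun_deckFun, mul_inv_cancel₀ (hζ.ne_zero hm), deckFun_one]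

theorem deck_pow (I : Set (MvPolynomial (Fin n) F)) (f : MvPolynomial (Fin n) F) {m : ℕ}
    {ζ : AlgebraicClosure F} (hζ : IsPrimitiveRoot ζ m) (hm : m ≠ 0) (i : ℕ)
    (v : {v // v ∈ coverSet I f m}) :
    (((deck I f hζ hm) ^ i) v).1 = deckFun (ζ ^ i) v.1 := by
  induction i with
  | zero => rw [pow_zero, pow_zero, Equiv.Perm.one_apply, deckFun_one]
  | succ i ih =>
    rw [pow_succ', pow_succ', Equiv.Perm.mul_apply, ← deckFun_deckFun, ← ih]
    rfl

/-- The projection of the cover to the base. -/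
def proj (I : Set (MvPolynomial (Fin n) F)) (f : MvPolynomial (Fin n) F) (m : ℕ)
    (v : {v // v ∈ coverSet I f m}) : {v // v ∈ openSet I f} := ⟨Fin.tail v.1, v.2.1⟩

theorem isCover (I : Set (MvPolynomial (Fin n) F)) (f : MvPolynomial (Fin n) F) {m : ℕ}
    {ζ : AlgebraicClosure F} (hζ : IsPrimitiveRoot ζ m) (hm : m ≠ 0)
    (hq : ζ ^ Fintype.card F = ζ) :
    IsCover (permOn (coverSet I f m) (stable_coverSet I f m))
      (permOn (openSet I f) (stable_openSet I f)) (deck I f hζ hm) (proj I f m) m where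
  surj := by
    rintro ⟨u, hu⟩
    obtain ⟨w, hw⟩ := IsAlgClosed.exists_pow_nat_eq (aeval u f) (Nat.pos_of_ne_zero hm)
    refine ⟨⟨Fin.cons w u, ?_, ?_⟩, ?_⟩
    · rw [Fin.tail_cons]; exact hu
    · rw [Fin.tail_cons, Fin.cons_zero]; exact hw
    · apply Subtype.ext
      show Fin.tail (Fin.cons w u : Fin (n + 1) → AlgebraicClosure F) = u
      rw [Fin.tail_cons]
  comm := by
    rintro ⟨v, hv⟩
    apply Subtype.ext
    show deckFun ζ (frobPerm F (n + 1) v) = frobPerm F (n + 1) (deckFun ζ v)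
    funext i
    refine Fin.cases ?_ (fun j => ?_) i
    · rw [deckFun_zero, frobPerm_apply, frobPerm_apply, deckFun_zero, mul_pow, hq]
    · rfl
  equi := by
    rintro ⟨v, hv⟩
    rfl
  pow_m := by
    apply Equiv.ext
    intro v
    apply Subtype.ext
    rw [deck_pow, hζ.pow_eq_one, deckFun_one, Equiv.Perm.one_apply]
  free := by
    rintro v i hi hi' h
    have h1 := congrArg (fun t => t.1 0) h
    simp only [deck_pow, deckFun_zero] at h1
    have h2 : v.1 0 ≠ 0 := by
      intro h3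
      have h4 := v.2.2
      rw [h3, zero_pow hm] at h4
      exact v.2.1.2 h4.symm
    have h5 : ζ ^ i = 1 := by
      apply mul_right_cancel₀ h2
      rw [one_mul]; exact h1
    exact hζ.pow_ne_one_of_pos_of_lt hi.ne' hi' h5
  inv := by
    rintro ⟨v, hv⟩
    rfl
  trans := by
    rintro x x' h
    have h1 : Fin.tail x.1 = Fin.tail x'.1 := congrArg Subtype.val h
    have h2 : x.1 0 ≠ 0 := by
      intro h3
      have h4 := x.2.2
      rw [h3, zero_pow hm] at h4
      exact x.2.1.2 h4.symm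
    have h3 : x'.1 0 ^ m = x.1 0 ^ m := by
      rw [x.2.2, x'.2.2, h1]
    have h4 : (x'.1 0 / x.1 0) ^ m = 1 := by
      rw [div_pow, h3, div_self (pow_ne_zero m h2)]
    have : NeZero m := ⟨hm⟩
    obtain ⟨i, hi, hi'⟩ := hζ.eq_pow_of_pow_eq_one h4
    refine ⟨i, hi, ?_⟩
    apply Subtype.ext
    rw [deck_pow]
    funext j
    refine Fin.cases ?_ (fun j => ?_) j
    · rw [deckFun_zero, hi', div_mul_cancel₀ _ h2]
    · exact congrFun h1 j

end

end Pool.Agent.Helper66.ZC
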