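import Mathlib

/-!
# Integer polynomials with constant term one, modulo a prime
-/

open Polynomial

namespace Pool.Agent.Helper66.ZC

theorem isPrimitive_of_coeff_zero {P : ℤ[X]} (h : P.coeff 0 = 1) : P.IsPrimitive := by
  intro r hr
  rw [C_dvd_iff_dvd_coeff] at hr
  have := hr 0
  rw [h] at this
  exact isUnit_of_dvd_one this

/-- The linear factor `1 - u T`. -/
noncomputable def lin (u : ℤ) : ℤ[X] := 1 - C u * X

theorem lin_coeff_zero (u : ℤ) : (lin u).coeff 0 = 1 := by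
  simp [lin]

theorem lin_map (u : ℤ) {R : Type} [CommRing R] (f : ℤ →+* R) :
    (lin u).map f = 1 - C (f u) * X := by
  simp [lin]

theorem lin_dvd {u : ℤ} (hu : u ≠ 0) {Q : ℚ[X]} {e : ℕ} (h : (X - C ((u : ℚ)⁻¹)) ^ e ∣ Q) :
    ((lin u).map (Int.castRingHom ℚ)) ^ e ∣ Q := by
  have hu' : (u : ℚ) ≠ 0 := by exact_mod_cast hu
  have h1 : (lin u).map (Int.castRingHom ℚ) = C (-(u : ℚ)) * (X - C ((u : ℚ)⁻¹)) := by
    rw [lin_map, mul_sub, ← C_mul]
    simp only [eq_intCast, neg_mul, mul_inv_cancel₀ hu', map_neg, C_1]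
    ring
  rw [h1, mul_pow, ← C_pow]
  have h2 : IsUnit (C ((-(u : ℚ)) ^ e)) := by
    rw [isUnit_C]
    exact (isUnit_iff_ne_zero.2 (pow_ne_zero _ (neg_ne_zero.2 hu')))
  exact (h2.mul_left_dvd).2 h

theorem lin_coprime {u v : ℤ} (h : u ≠ v) :
    IsCoprime ((lin u).map (Int.castRingHom ℚ)) ((lin v).map (Int.castRingHom ℚ)) := by
  have huv : ((v : ℚ) - u) ≠ 0 := by
    intro h1
    apply h
    have : (v : ℚ) = u := by linarith
    exact_mod_cast this.symm
  refine ⟨C ((v : ℚ) / (v - u)), C (-(u : ℚ) / (v - u)), ?_⟩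
  rw [lin_map, lin_map]
  have e1 : C ((v : ℚ) / (v - u)) + C (-(u : ℚ) / (v - u)) = 1 := by
    rw [← C_add, ← C_1]
    congr 1
    field_simp
    ring
  have e2 : C ((v : ℚ) / (v - u)) * C (u : ℚ) + C (-(u : ℚ) / (v - u)) * C (v : ℚ) = 0 := by
    rw [← C_mul, ← C_mul, ← C_add, ← C_0]
    congr 1
    field_simp
    ring
  simp only [eq_intCast]
  linear_combination e1 - X * e2

/-- Multiplicities of the roots `1 / u`, `u = 1 mod ℓ`, are bounded by the multiplicity of the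
root `1` modulo `ℓ`. -/
theorem sum_rootMultiplicity_le {ℓ : ℕ} (hℓ : ℓ.Prime) {P : ℤ[X]} (h0 : P.coeff 0 = 1)
    (I : Finset ℤ) (hI : ∀ u ∈ I, (u : ZMod ℓ) = 1) :
    ∑ u ∈ I, rootMultiplicity ((u : ℚ)⁻¹) (P.map (Int.castRingHom ℚ)) ≤
      rootMultiplicity 1 (P.map (Int.castRingHom (ZMod ℓ))) := by
  have : Fact ℓ.Prime := ⟨hℓ⟩
  set e : ℤ → ℕ := fun u => rootMultiplicity ((u : ℚ)⁻¹) (P.map (Int.castRingHom ℚ)) with he
  have hne : ∀ u ∈ I, u ≠ 0 := by
    intro u hu h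
    have := hI u hu
    rw [h] at this
    simp at this
  have h1 : ∏ u ∈ I, ((lin u).map (Int.castRingHom ℚ)) ^ (e u) ∣
      P.map (Int.castRingHom ℚ) := by
    apply Finset.prod_dvd_of_coprime
    · intro u _ v _ huv
      exact (lin_coprime huv).pow
    · intro u hu
      exact lin_dvd (hne u hu) (pow_rootMultiplicity_dvd _ _)
  have h2 : (∏ u ∈ I, (lin u) ^ (e u)) ∣ P := by
    rw [IsPrimitive.Int.dvd_iff_map_cast_dvd_map_cast]
    · rw [Polynomial.map_prod]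
      simp only [Polynomial.map_pow]
      exact h1
    · apply isPrimitive_of_coeff_zero
      rw [coeff_zero_eq_eval_zero, eval_prod]
      refine Finset.prod_eq_one fun u _ => ?_
      rw [eval_pow, ← coeff_zero_eq_eval_zero, lin_coeff_zero, one_pow]
  have h3 := Polynomial.map_dvd (Int.castRingHom (ZMod ℓ)) h2
  rw [Polynomial.map_prod] at h3
  have h4 : ∏ u ∈ I, ((lin u) ^ (e u)).map (Int.castRingHom (ZMod ℓ)) =
      (1 - X) ^ (∑ u ∈ I, e u) := by
    rw [← Finset.prod_pow_eq_pow_sum]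
    refine Finset.prod_congr rfl fun u hu => ?_
    rw [Polynomial.map_pow, lin_map]
    simp only [eq_intCast]
    rw [hI u hu, C_1, one_mul]
  rw [h4] at h3
  have h5 : (X - C (1 : ZMod ℓ)) ^ (∑ u ∈ I, e u) ∣ P.map (Int.castRingHom (ZMod ℓ)) := by
    have e1 : (X - C (1 : ZMod ℓ)) = -(1 - X) := by rw [C_1]; ring
    rw [e1, neg_pow]
    have h6 : IsUnit ((-1 : (ZMod ℓ)[X]) ^ (∑ u ∈ I, e u)) := (isUnit_one.neg).pow _
    exact (h6.mul_left_dvd).2 h3
  refine (le_rootMultiplicity_iff ?_).2 h5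
  intro hz
  have h6 := congrArg (fun Q => coeff Q 0) hz
  simp only [coeff_map, h0, map_one, coeff_zero] at h6
  exact one_ne_zero h6

/-- If `1` is not a root modulo `ℓ` then no complex root of `P` is an `ℓ`-power root of unity
divided by an integer congruent to `1` modulo `ℓ`. -/
theorem no_root {ℓ : ℕ} (hℓ : ℓ.Prime) {P : ℤ[X]}
    (h1 : (P.map (Int.castRingHom (ZMod ℓ))).eval 1 ≠ 0) {u : ℤ} (hu : (u : ZMod ℓ) = 1)
    (j : ℕ) {z : ℂ} (hz : aeval z P = 0) : ((u : ℂ) * z) ^ (ℓ ^ j) ≠ 1 := by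
  have : Fact ℓ.Prime := ⟨hℓ⟩
  intro huz
  have hpos : ℓ ^ j ≠ 0 := pow_ne_zero _ hℓ.ne_zero
  have hz0 : z ≠ 0 := by
    rintro rfl
    rw [mul_zero, zero_pow hpos] at huz
    exact zero_ne_one huz
  set β : ℂ := z⁻¹ with hβ
  have hβpow : β ^ (ℓ ^ j) = (u : ℂ) ^ (ℓ ^ j) := by
    rw [mul_pow] at huz
    rw [hβ, inv_pow]
    exact (eq_inv_of_mul_eq_one_left huz).symm
  have hint : IsIntegral ℤ β := by
    refine ⟨X ^ (ℓ ^ j) - C (u ^ (ℓ ^ j)), monic_X_pow_sub_C _ hpos, ?_⟩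
    rw [eval₂_sub, eval₂_X_pow, eval₂_C, hβpow]
    simp
  have hd1 : minpoly ℤ β ∣ X ^ (ℓ ^ j) - C (u ^ (ℓ ^ j)) := by
    apply minpoly.isIntegrallyClosed_dvd hint
    rw [map_sub, map_pow, aeval_X, aeval_C, hβpow]
    simp
  have hd2 : minpoly ℤ β ∣ P.reverse := by
    apply minpoly.isIntegrallyClosed_dvd hint
    let : Invertible z := invertibleOfNonzero hz0
    have h2 := (eval₂_reverse_eq_zero_iff (algebraMap ℤ ℂ) z P).2 hz
    rw [invOf_eq_inv] at h2
    exact h2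
  set f := Int.castRingHom (ZMod ℓ) with hf
  have hd3 : (minpoly ℤ β).map f ∣ (X - C (1 : ZMod ℓ)) ^ (ℓ ^ j) := by
    have h3 := Polynomial.map_dvd f hd1
    rw [Polynomial.map_sub, Polynomial.map_pow, map_X, map_C, map_pow] at h3
    have h4 : f u = 1 := by rw [hf, eq_intCast]; exact hu
    rw [h4] at h3
    rw [sub_pow_char_pow, ← C_pow]
    exact h3
  have hmon : (minpoly ℤ β).Monic := minpoly.monic hint
  have hdeg : ((minpoly ℤ β).map f).natDegree = (minpoly ℤ β).natDegree :=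
    hmon.natDegree_map f
  have hdpos : 0 < (minpoly ℤ β).natDegree := minpoly.natDegree_pos hint
  obtain ⟨k, _, hk⟩ := (dvd_prime_pow (prime_X_sub_C (1 : ZMod ℓ)) _).1 hd3
  have hk0 : k ≠ 0 := by
    rintro rfl
    rw [pow_zero] at hk
    have h5 := natDegree_eq_zero_of_isUnit (hk.symm.isUnit isUnit_one)
    omega
  have hd4 : (X - C (1 : ZMod ℓ)) ∣ (minpoly ℤ β).map f :=
    (dvd_pow_self _ hk0).trans hk.symm.dvd
  have hd5 : (X - C (1 : ZMod ℓ)) ∣ P.reverse.map f :=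
    hd4.trans (Polynomial.map_dvd f hd2)
  rw [dvd_iff_isRoot, IsRoot.def] at hd5
  apply h1
  let : Invertible (1 : ZMod ℓ) := invertibleOne
  have h6 := eval₂_reverse_mul_pow f (1 : ZMod ℓ) P
  rw [invOf_one, one_pow, mul_one, eval₂_eq_eval_map, hd5, eval₂_eq_eval_map] at h6
  exact h6.symm

end Pool.Agent.Helper66.ZC
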