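import Pool.Agent.Helper66.ZC.Instance
import Pool.Agent.Helper66.ZC.Poly

/-!
# The congruence between the zeta functions of `w ^ m = f` and of its base
-/

open MvPolynomial (aeval)
open PowerSeries

namespace Pool.Agent.Helper66.ZC

section

variable {F : Type} [Field F] [Fintype F] {n : ℕ}

/-- The general congruence. -/
theorem general₂ {ℓ r : ℕ} (hℓ : ℓ.Prime) (hdvd : ℓ ^ r ∣ Fintype.card F - 1)
    (I : Set (MvPolynomial (Fin n) F)) (f : MvPolynomial (Fin n) F)
    {A₁ A₂ P₁ P₂ : Polynomial ℤ} (h0 : A₁.coeff 0 = 1)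
    (hU : zeta (numPts F (openSet I f)) * (A₂.map (Int.castRingHom ℚ) : Polynomial ℚ) =
      ((A₁.map (Int.castRingHom ℚ) : Polynomial ℚ) : ℚ⟦X⟧))
    (hX : zeta (numPts F (coverSet I f (ℓ ^ r))) * (P₁.map (Int.castRingHom ℚ) : Polynomial ℚ) =
      zeta (numPts F (openSet I f)) * (P₂.map (Int.castRingHom ℚ) : Polynomial ℚ)) :
    P₁.map (Int.castRingHom (ZMod ℓ)) * A₁.map (Int.castRingHom (ZMod ℓ)) ^ (ℓ ^ r - 1) =
      P₂.map (Int.castRingHom (ZMod ℓ)) *
        A₂.map (Int.castRingHom (ZMod ℓ)) ^ (ℓ ^ r - 1) := by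
  obtain ⟨ζ, hζ, hq⟩ := exists_root hdvd
  have hm : ℓ ^ r ≠ 0 := pow_ne_zero r hℓ.ne_zero
  have hc := isCover I f hζ hm hq
  have e1 : fixNum (permOn (openSet I f) (stable_openSet I f)) = numPts F (openSet I f) :=
    funext fun k => fixNum_permOn _ _ k
  have e2 : fixNum (permOn (coverSet I f (ℓ ^ r)) (stable_coverSet I f (ℓ ^ r))) =
      numPts F (coverSet I f (ℓ ^ r)) := funext fun k => fixNum_permOn _ _ k
  refine hc.poly_congr₂ hℓ (finFix_permOn _ _) (finFix_permOn _ _) h0 ?_ ?_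
  · rw [e1]; exact hU
  · rw [e1, e2]; exact hX

theorem general {ℓ r : ℕ} (hℓ : ℓ.Prime) (hdvd : ℓ ^ r ∣ Fintype.card F - 1)
    (I : Set (MvPolynomial (Fin n) F)) (f : MvPolynomial (Fin n) F)
    {A₁ A₂ P : Polynomial ℤ} (h0 : A₁.coeff 0 = 1)
    (hU : zeta (numPts F (openSet I f)) * (A₂.map (Int.castRingHom ℚ) : Polynomial ℚ) =
      ((A₁.map (Int.castRingHom ℚ) : Polynomial ℚ) : ℚ⟦X⟧))
    (hX : zeta (numPts F (coverSet I f (ℓ ^ r))) * (P.map (Int.castRingHom ℚ) : Polynomial ℚ) =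
      zeta (numPts F (openSet I f))) :
    P.map (Int.castRingHom (ZMod ℓ)) * A₁.map (Int.castRingHom (ZMod ℓ)) ^ (ℓ ^ r - 1) =
      A₂.map (Int.castRingHom (ZMod ℓ)) ^ (ℓ ^ r - 1) := by
  have h1 := general₂ hℓ hdvd I f (P₁ := P) (P₂ := 1) h0 hU
    (by rw [Polynomial.map_one, Polynomial.coe_one, mul_one]; exact hX)
  rwa [Polynomial.map_one, one_mul] at h1

omit [Fintype F] in
theorem openSet_union (f : MvPolynomial (Fin 2) F) :
    openSet ∅ f ∪ curveSet f = Set.univ := by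
  ext v
  simp only [openSet, curveSet, zeroLocus, Set.mem_union, Set.mem_ofPred_eq,
    Set.mem_empty_iff_false, Set.mem_univ, iff_true]
  by_cases h : aeval v f = 0
  · exact Or.inr h
  · exact Or.inl ⟨fun g hg => hg.elim, h⟩

omit [Fintype F] in
theorem openSet_disjoint (f : MvPolynomial (Fin 2) F) :
    Disjoint (openSet ∅ f) (curveSet f) := by
  rw [Set.disjoint_left]
  rintro v h1 h2
  exact h1.2 h2

theorem zeta_open (f : MvPolynomial (Fin 2) F) :
    zeta (numPts F (openSet ∅ f)) * zeta (numPts F (curveSet f)) *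
      (1 - C ((Fintype.card F : ℚ) ^ 2) * X) = 1 := by
  have h1 : zeta (numPts F (Set.univ : Set (Fin 2 → AlgebraicClosure F))) =
      zeta (numPts F (openSet ∅ f)) * zeta (numPts F (curveSet f)) := by
    rw [← zeta_add]
    apply zeta_congr
    intro k hk
    rw [← numPts_union _ _ (openSet_disjoint f) hk, openSet_union]
  have h2 := zeta_pow (Fintype.card F ^ 2)
  rw [← h1, ← zeta_congr (N := fun k => (Fintype.card F ^ 2) ^ k) fun k hk =>
    (numPts_univ (F := F) (n := 2) hk).symm]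
  push_cast at h2
  exact h2

/-- The ramification locus of the surface. -/
def ramSet (f : MvPolynomial (Fin 2) F) : Set (Fin 3 → AlgebraicClosure F) :=
  {v | v 0 = 0 ∧ Fin.tail v ∈ curveSet f}

omit [Fintype F] in
theorem surface_union (f : MvPolynomial (Fin 2) F) {m : ℕ} (hm : m ≠ 0) :
    coverSet ∅ f m ∪ ramSet f = surfaceSet f m := by
  ext v
  simp only [openSet, coverSet, curveSet, ramSet, surfaceSet, zeroLocus, Set.mem_union,
    Set.mem_ofPred_eq]
  constructor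
  · rintro (⟨_, h⟩ | ⟨h1, h2⟩)
    · exact h
    · rw [h1, h2, zero_pow hm]
  · intro h
    by_cases h0 : aeval (Fin.tail v) f = 0
    · rw [h0] at h
      exact Or.inr ⟨pow_eq_zero_iff hm |>.1 h, h0⟩
    · exact Or.inl ⟨⟨fun g hg => hg.elim, h0⟩, h⟩

omit [Fintype F] in
theorem surface_disjoint (f : MvPolynomial (Fin 2) F) (m : ℕ) :
    Disjoint (coverSet ∅ f m) (ramSet f) := by
  rw [Set.disjoint_left]
  rintro v h1 h2
  exact h1.1.2 h2.2

theorem numPts_ram (f : MvPolynomial (Fin 2) F) (k : ℕ) :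
    numPts F (ramSet f) k = numPts F (curveSet f) k := by
  unfold numPts
  have hinj : Function.Injective
      fun u : Fin 2 → AlgebraicClosure F => (Fin.cons 0 u : Fin 3 → AlgebraicClosure F) := by
    intro u u' h
    have := congrArg Fin.tail h
    simpa using this
  rw [← Set.ncard_image_of_injective _ hinj]
  congr 1
  ext v
  constructor
  · rintro ⟨⟨h1, h2⟩, h3⟩
    refine ⟨Fin.tail v, ⟨h2, fun i => h3 i.succ⟩, ?_⟩
    show (Fin.cons 0 (Fin.tail v) : Fin 3 → AlgebraicClosure F) = v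
    rw [← h1, Fin.cons_self_tail]
  · rintro ⟨u, ⟨h1, h2⟩, rfl⟩
    refine ⟨⟨rfl, ?_⟩, ?_⟩
    · show Fin.tail (Fin.cons 0 u : Fin 3 → AlgebraicClosure F) ∈ curveSet f
      rw [Fin.tail_cons]; exact h1
    · intro i
      refine Fin.cases ?_ (fun j => ?_) i
      · show (0 : AlgebraicClosure F) ^ _ = 0
        rw [zero_pow (pow_ne_zero _ Fintype.card_ne_zero)]
      · exact h2 j

theorem zeta_surface (f : MvPolynomial (Fin 2) F) {m : ℕ} (hm : m ≠ 0) :
    zeta (numPts F (surfaceSet f m)) =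
      zeta (numPts F (coverSet ∅ f m)) * zeta (numPts F (curveSet f)) := by
  rw [← zeta_add]
  apply zeta_congr
  intro k hk
  rw [← numPts_ram f k, ← numPts_union _ _ (surface_disjoint f m) hk, surface_union f hm]

theorem zeta_ne_zero (N : ℕ → ℕ) : zeta N ≠ 0 := by
  intro h
  have h1 := constantCoeff_zeta N
  rw [h, map_zero] at h1
  exact zero_ne_one h1

/-- The congruence for surfaces `w ^ m = f(x, y)`. -/
theorem plane {ℓ r : ℕ} (hℓ : ℓ.Prime) (hdvd : ℓ ^ r ∣ Fintype.card F - 1)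
    (f : MvPolynomial (Fin 2) F) {A P : Polynomial ℤ}
    (hA : zeta (numPts F (curveSet f)) * (1 - C (Fintype.card F : ℚ) * X) =
      ((A.map (Int.castRingHom ℚ) : Polynomial ℚ) : ℚ⟦X⟧))
    (hP : zeta (numPts F (surfaceSet f (ℓ ^ r))) * (1 - C ((Fintype.card F : ℚ) ^ 2) * X) *
      ((P.map (Int.castRingHom ℚ) : Polynomial ℚ) : ℚ⟦X⟧) = 1) :
    P.map (Int.castRingHom (ZMod ℓ)) = A.map (Int.castRingHom (ZMod ℓ)) ^ (ℓ ^ r - 1) := by
  have : Fact ℓ.Prime := ⟨hℓ⟩
  have hm : ℓ ^ r ≠ 0 := pow_ne_zero r hℓ.ne_zero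
  set q : ℤ := (Fintype.card F : ℤ) with hq
  have hlin : ∀ u : ℤ, (((lin u).map (Int.castRingHom ℚ) : Polynomial ℚ) : ℚ⟦X⟧) =
      1 - C (u : ℚ) * X := by
    intro u
    rw [lin_map, eq_intCast, Polynomial.coe_sub, Polynomial.coe_one, Polynomial.coe_mul,
      Polynomial.coe_C, Polynomial.coe_X]
  have hS := zeta_open f
  have hT := zeta_surface f hm
  set zU := zeta (numPts F (openSet ∅ f)) with hzU
  set zC := zeta (numPts F (curveSet f)) with hzC
  set zV := zeta (numPts F (coverSet ∅ f (ℓ ^ r))) with hzV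
  rw [hT] at hP
  have hg := general (F := F) (n := 2) hℓ hdvd ∅ f (A₁ := lin q) (A₂ := lin (q ^ 2) * A) (P := P)
    (lin_coeff_zero q) ?_ ?_
  · rcases Nat.eq_zero_or_pos r with hr | hr
    · subst hr
      simpa using hg
    have hq1 : ((q : ℤ) : ZMod ℓ) = 1 := by
      have h1 : ((Fintype.card F - 1 : ℕ) : ZMod ℓ) = 0 :=
        (ZMod.natCast_eq_zero_iff _ _).2 ((dvd_pow_self ℓ hr.ne').trans hdvd)
      rw [Nat.cast_sub Fintype.card_pos, Nat.cast_one, sub_eq_zero] at h1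
      rw [hq]
      exact_mod_cast h1
    rw [Polynomial.map_mul, lin_map, lin_map, mul_pow, map_pow, eq_intCast, hq1, one_pow,
      mul_comm] at hg
    refine mul_left_cancel₀ (pow_ne_zero _ ?_) hg
    intro h3
    have h4 := congrArg (Polynomial.coeff · 0) h3
    simp at h4
  · rw [Polynomial.map_mul, Polynomial.coe_mul, hlin, hlin, ← hA]
    push_cast
    calc zU * ((1 - C ((q : ℚ) ^ 2) * X) * (zC * (1 - C (Fintype.card F : ℚ) * X)))
        = (zU * zC * (1 - C ((Fintype.card F : ℚ) ^ 2) * X)) *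
          (1 - C (Fintype.card F : ℚ) * X) := by
          rw [hq]; push_cast; ring
      _ = 1 - C (Fintype.card F : ℚ) * X := by rw [hS, one_mul]
      _ = _ := by rw [hq]; push_cast; rfl
  · have h2 : (1 - C ((Fintype.card F : ℚ) ^ 2) * X) * zC ≠ 0 := by
      intro h3
      rw [mul_assoc, mul_comm zC, h3, mul_zero] at hS
      exact zero_ne_one hS
    apply mul_right_cancel₀ h2
    calc zV * ((P.map (Int.castRingHom ℚ) : Polynomial ℚ) : ℚ⟦X⟧) *
        ((1 - C ((Fintype.card F : ℚ) ^ 2) * X) * zC)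
        = zV * zC * (1 - C ((Fintype.card F : ℚ) ^ 2) * X) *
          ((P.map (Int.castRingHom ℚ) : Polynomial ℚ) : ℚ⟦X⟧) := by ring
      _ = 1 := hP
      _ = zU * zC * (1 - C ((Fintype.card F : ℚ) ^ 2) * X) := hS.symm
      _ = zU * ((1 - C ((Fintype.card F : ℚ) ^ 2) * X) * zC) := by ring

end

end Pool.Agent.Helper66.ZC
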