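import Pool.Agent.Helper66.ZC.Series

/-!
# Points over the algebraic closure of a finite field
-/

open MvPolynomial

namespace Pool.Agent.Helper66.ZC

section

variable (F : Type) [Field F] [Fintype F] (n : ℕ)

/-- The Frobenius permutation of affine space. -/
noncomputable def frobPerm : Equiv.Perm (Fin n → AlgebraicClosure F) :=
  Equiv.piCongrRight fun _ =>
    (FiniteField.frobeniusAlgEquivOfAlgebraic F (AlgebraicClosure F)).toEquiv

variable {F} {n}

theorem frobPerm_apply (v : Fin n → AlgebraicClosure F) (i : Fin n) :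
    frobPerm F n v i = v i ^ Fintype.card F := rfl

theorem frobPerm_pow (k : ℕ) (v : Fin n → AlgebraicClosure F) (i : Fin n) :
    (frobPerm F n ^ k) v i = v i ^ (Fintype.card F ^ k) := by
  induction k with
  | zero => simp
  | succ k ih => rw [pow_succ', Equiv.Perm.mul_apply, frobPerm_apply, ih, ← pow_mul, ← pow_succ]

theorem aeval_frobPerm (v : Fin n → AlgebraicClosure F) (g : MvPolynomial (Fin n) F) :
    aeval (frobPerm F n v) g = aeval v g ^ Fintype.card F := by
  have h := MvPolynomial.comp_aeval_apply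
    (f := v) (FiniteField.frobeniusAlgHom F (AlgebraicClosure F)) g
  rw [FiniteField.coe_frobeniusAlgHom] at h
  exact h.symm

/-- Stability under Frobenius. -/
def Stable (Z : Set (Fin n → AlgebraicClosure F)) : Prop := ∀ v, frobPerm F n v ∈ Z ↔ v ∈ Z

/-- The Frobenius permutation of a stable set. -/
noncomputable def permOn (Z : Set (Fin n → AlgebraicClosure F)) (hZ : Stable Z) :
    Equiv.Perm {v // v ∈ Z} := (frobPerm F n).subtypePerm fun v => hZ v

theorem permOn_pow (Z : Set (Fin n → AlgebraicClosure F)) (hZ : Stable Z) (k : ℕ)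
    (v : {v // v ∈ Z}) : (((permOn Z hZ) ^ k) v).1 = (frobPerm F n ^ k) v.1 := by
  induction k with
  | zero => rfl
  | succ k ih =>
    rw [pow_succ', pow_succ', Equiv.Perm.mul_apply, Equiv.Perm.mul_apply, ← ih]
    rfl

theorem fixNum_permOn (Z : Set (Fin n → AlgebraicClosure F)) (hZ : Stable Z) (k : ℕ) :
    fixNum (permOn Z hZ) k = numPts F Z k := by
  unfold fixNum numPts
  have h : {v | v ∈ Z ∧ ∀ i, v i ^ (Fintype.card F ^ k) = v i} =
      Subtype.val '' {x : {v // v ∈ Z} | (permOn Z hZ ^ k) x = x} := by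
    ext v
    constructor
    · rintro ⟨h1, h2⟩
      refine ⟨⟨v, h1⟩, ?_, rfl⟩
      apply Subtype.ext
      rw [permOn_pow]
      funext i
      rw [frobPerm_pow]
      exact h2 i
    · rintro ⟨x, hx, rfl⟩
      refine ⟨x.2, fun i => ?_⟩
      have h1 := congrArg Subtype.val hx
      rw [permOn_pow] at h1
      rw [← frobPerm_pow]
      exact congrFun h1 i
  rw [h, Set.ncard_image_of_injective _ Subtype.val_injective]

theorem fix_finite (F : Type) [Field F] [Fintype F] {k : ℕ} (hk : 0 < k) :
    {x : AlgebraicClosure F | x ^ (Fintype.card F ^ k) = x}.Finite := by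
  classical
  set Q : Polynomial (AlgebraicClosure F) :=
    Polynomial.X ^ (Fintype.card F ^ k) - Polynomial.X with hQ
  have h1 : 1 < Fintype.card F ^ k := Nat.one_lt_pow hk.ne' Fintype.one_lt_card
  have hne : Q ≠ 0 := FiniteField.X_pow_card_sub_X_ne_zero _ h1
  refine (Q.roots.toFinset.finite_toSet).subset ?_
  intro x hx
  rw [Finset.mem_coe, Multiset.mem_toFinset, Polynomial.mem_roots hne, hQ,
    Polynomial.IsRoot.def, Polynomial.eval_sub, Polynomial.eval_pow, Polynomial.eval_X]
  exact sub_eq_zero.2 hx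

theorem fix_card (F : Type) [Field F] [Fintype F] {k : ℕ} (hk : 0 < k) :
    {x : AlgebraicClosure F | x ^ (Fintype.card F ^ k) = x}.ncard = Fintype.card F ^ k := by
  classical
  obtain ⟨p, hp⟩ := CharP.exists F
  have : CharP (AlgebraicClosure F) p := charP_of_injective_algebraMap
    (algebraMap F (AlgebraicClosure F)).injective p
  obtain ⟨a, hpp, ha⟩ := FiniteField.card F p
  set Q : Polynomial (AlgebraicClosure F) :=
    Polynomial.X ^ (Fintype.card F ^ k) - Polynomial.X with hQ
  have h1 : 1 < Fintype.card F ^ k := Nat.one_lt_pow hk.ne' Fintype.one_lt_card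
  have hne : Q ≠ 0 := FiniteField.X_pow_card_sub_X_ne_zero _ h1
  have hdvd : p ∣ Fintype.card F ^ k := by
    rw [ha]
    exact dvd_pow (dvd_pow_self p a.ne_zero) hk.ne'
  have hsep : Q.Separable := galois_poly_separable p _ hdvd
  have hcard := Polynomial.card_rootSet_eq_natDegree (K := AlgebraicClosure F) hsep
    (IsAlgClosed.splits _)
  have hset : (Q.rootSet (AlgebraicClosure F)) =
      {x : AlgebraicClosure F | x ^ (Fintype.card F ^ k) = x} := by
    ext x
    rw [Polynomial.mem_rootSet, hQ]
    simp only [map_sub, map_pow, Polynomial.aeval_X, Set.mem_ofPred_eq, sub_eq_zero]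
    exact ⟨fun h => h.2, fun h => ⟨hne, h⟩⟩
  rw [← hset, ← Nat.card_coe_set_eq, Nat.card_eq_fintype_card, hcard, hQ]
  exact FiniteField.X_pow_card_sub_X_natDegree_eq _ h1

theorem numPts_finite (Z : Set (Fin n → AlgebraicClosure F)) {k : ℕ} (hk : 0 < k) :
    {v | v ∈ Z ∧ ∀ i, v i ^ (Fintype.card F ^ k) = v i}.Finite := by
  refine (Set.Finite.pi' fun _ : Fin n => fix_finite F hk).subset ?_
  rintro v ⟨_, h⟩
  exact h

theorem finFix_permOn (Z : Set (Fin n → AlgebraicClosure F)) (hZ : Stable Z) :
    FinFix (permOn Z hZ) := by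
  intro k hk
  apply Set.Finite.of_finite_image (f := Subtype.val) _ Subtype.val_injective.injOn
  refine (numPts_finite Z hk).subset ?_
  rintro v ⟨x, hx, rfl⟩
  refine ⟨x.2, fun i => ?_⟩
  have h1 := congrArg Subtype.val hx
  rw [permOn_pow] at h1
  rw [← frobPerm_pow]
  exact congrFun h1 i

/-- The number of points of affine space. -/
theorem numPts_univ {k : ℕ} (hk : 0 < k) :
    numPts F (Set.univ : Set (Fin n → AlgebraicClosure F)) k = (Fintype.card F ^ n) ^ k := by
  classical
  unfold numPts
  have h : {v : Fin n → AlgebraicClosure F | v ∈ (Set.univ : Set (Fin n → AlgebraicClosure F)) ∧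
      ∀ i, v i ^ (Fintype.card F ^ k) = v i} =
      Set.pi Set.univ fun _ => {x : AlgebraicClosure F | x ^ (Fintype.card F ^ k) = x} := by
    ext v
    simp
  rw [h, ← Nat.card_coe_set_eq, Nat.card_congr (Equiv.Set.univPi _), Nat.card_pi]
  simp only [Nat.card_coe_set_eq, fix_card F hk, Finset.prod_const, Finset.card_univ,
    Fintype.card_fin]
  rw [← pow_mul, ← pow_mul, mul_comm]

theorem numPts_union (Z W : Set (Fin n → AlgebraicClosure F)) (h : Disjoint Z W) {k : ℕ}
    (hk : 0 < k) : numPts F (Z ∪ W) k = numPts F Z k + numPts F W k := by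
  unfold numPts
  rw [← Set.ncard_union_eq _ (numPts_finite Z hk) (numPts_finite W hk)]
  · congr 1
    ext v
    simp only [Set.mem_union, Set.mem_ofPred_eq]
    tauto
  · rw [Set.disjoint_left]
    rintro v ⟨h1, _⟩ ⟨h2, _⟩
    exact Set.disjoint_left.1 h h1 h2

end

end Pool.Agent.Helper66.ZC
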