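import Pool.Agent.Helper66.ZC.Poly

/-!
# The number of reciprocal roots which are integers times roots of unity of `ℓ`-power order
-/

open Polynomial

namespace Pool.Agent.Helper66.ZC

/-- `α` is an integer congruent to `1` modulo `ℓ` times a root of unity of `ℓ`-power order. -/
def Good (ℓ : ℕ) (α : ℂ) : Prop :=
  ∃ u : ℤ, (u : ZMod ℓ) = 1 ∧ ∃ j : ℕ, α ^ (ℓ ^ j) = (u : ℂ) ^ (ℓ ^ j)

open Classical in
/-- The number, with multiplicity, of the reciprocal roots `α` of `P` with `Good ℓ α`. -/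
noncomputable def goodNum (ℓ : ℕ) (P : ℤ[X]) : ℕ :=
  (P.reverse.map (Int.castRingHom ℂ)).roots.countP (Good ℓ)

open Classical in
theorem pow_dvd_of_good {ℓ : ℕ} (hℓ : ℓ.Prime) (n : ℕ) : ∀ Q : ℤ[X], Q.Monic →
    Q.natDegree ≤ n →
    (X - C (1 : ZMod ℓ)) ^ ((Q.map (Int.castRingHom ℂ)).roots.countP (Good ℓ)) ∣
      Q.map (Int.castRingHom (ZMod ℓ)) := by
  have : Fact ℓ.Prime := ⟨hℓ⟩
  induction n with
  | zero =>
    intro Q hQ hn
    have h1 : Q = 1 := hQ.natDegree_eq_zero.1 (by omega)
    rw [h1]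
    simp
  | succ n ih =>
    intro Q hQ hn
    by_cases hex : ∃ α ∈ (Q.map (Int.castRingHom ℂ)).roots, Good ℓ α
    · obtain ⟨α, hα, u, hu, j, hj⟩ := hex
      have hQne : Q.map (Int.castRingHom ℂ) ≠ 0 := (hQ.map _).ne_zero
      rw [mem_roots hQne, IsRoot.def, eval_map] at hα
      have hpos : ℓ ^ j ≠ 0 := pow_ne_zero _ hℓ.ne_zero
      have hint : IsIntegral ℤ α := by
        refine ⟨X ^ (ℓ ^ j) - C (u ^ (ℓ ^ j)), monic_X_pow_sub_C _ hpos, ?_⟩
        rw [eval₂_sub, eval₂_X_pow, eval₂_C, hj]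
        simp
      have hd1 : minpoly ℤ α ∣ X ^ (ℓ ^ j) - C (u ^ (ℓ ^ j)) := by
        apply minpoly.isIntegrallyClosed_dvd hint
        rw [map_sub, map_pow, aeval_X, aeval_C, hj]
        simp
      have hd2 : minpoly ℤ α ∣ Q := minpoly.isIntegrallyClosed_dvd hint hα
      have hmon : (minpoly ℤ α).Monic := minpoly.monic hint
      have hdpos : 0 < (minpoly ℤ α).natDegree := minpoly.natDegree_pos hint
      set G := minpoly ℤ α with hG
      obtain ⟨H, hH⟩ := hd2
      have hHmon : H.Monic := hmon.of_mul_monic_left (hH ▸ hQ)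
      have hdeg : Q.natDegree = G.natDegree + H.natDegree := by
        rw [hH, hmon.natDegree_mul hHmon]
      set f := Int.castRingHom (ZMod ℓ) with hf
      have hd3 : G.map f ∣ (X - C (1 : ZMod ℓ)) ^ (ℓ ^ j) := by
        have h3 := Polynomial.map_dvd f hd1
        rw [Polynomial.map_sub, Polynomial.map_pow, map_X, map_C, map_pow] at h3
        have h4 : f u = 1 := by rw [hf, eq_intCast]; exact hu
        rw [h4] at h3
        rw [sub_pow_char_pow, ← C_pow]
        exact h3
      obtain ⟨k, _, hk⟩ := (dvd_prime_pow (prime_X_sub_C (1 : ZMod ℓ)) _).1 hd3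
      have hkeq : G.map f = (X - C (1 : ZMod ℓ)) ^ k :=
        eq_of_monic_of_associated (hmon.map f) ((monic_X_sub_C 1).pow k) hk
      have hkdeg : k = G.natDegree := by
        have h5 := congrArg natDegree hkeq
        rw [hmon.natDegree_map f, natDegree_pow, natDegree_X_sub_C, mul_one] at h5
        exact h5.symm
      have hmulne : G.map (Int.castRingHom ℂ) * H.map (Int.castRingHom ℂ) ≠ 0 :=
        mul_ne_zero (hmon.map _).ne_zero (hHmon.map _).ne_zero
      rw [hH, Polynomial.map_mul, Polynomial.map_mul, roots_mul hmulne, Multiset.countP_add,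
        pow_add]
      refine mul_dvd_mul ?_ (ih H hHmon (by omega))
      rw [hkeq]
      apply pow_dvd_pow
      refine (Multiset.countP_le_card _ _).trans ((card_roots' _).trans ?_)
      rw [hmon.natDegree_map, hkdeg]
    · have h0 : (Q.map (Int.castRingHom ℂ)).roots.countP (Good ℓ) = 0 := by
        rw [Multiset.countP_eq_zero]
        intro α hα hg
        exact hex ⟨α, hα, hg⟩
      rw [h0, pow_zero]
      exact one_dvd _

theorem goodNum_le {ℓ : ℕ} (hℓ : ℓ.Prime) {P : ℤ[X]} (h0 : P.coeff 0 = 1) :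
    goodNum ℓ P ≤ rootMultiplicity 1 (P.map (Int.castRingHom (ZMod ℓ))) := by
  classical
  have : Fact ℓ.Prime := ⟨hℓ⟩
  set f := Int.castRingHom (ZMod ℓ) with hf
  have hPne : P ≠ 0 := by
    rintro rfl
    rw [coeff_zero] at h0
    exact zero_ne_one h0
  have htr : P.natTrailingDegree = 0 := by
    rw [natTrailingDegree_eq_zero]
    right
    rw [h0]
    exact one_ne_zero
  have hlead : P.reverse.Monic := by
    rw [Monic, reverse_leadingCoeff, trailingCoeff, htr, h0]
  have hd := pow_dvd_of_good hℓ P.reverse.natDegree P.reverse hlead le_rfl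
  have hdeg : P.reverse.natDegree = P.natDegree := by
    rw [reverse_natDegree, htr, Nat.sub_zero]
  set d := goodNum ℓ P with hdd
  have hd' : (X - C (1 : ZMod ℓ)) ^ d ∣ P.reverse.map f := hd
  obtain ⟨R, hR⟩ := hd'
  have hRmon : R.Monic := ((monic_X_sub_C (1 : ZMod ℓ)).pow d).of_mul_monic_left
    (hR ▸ hlead.map f)
  have hdegR : d + R.natDegree = P.natDegree := by
    have h5 := congrArg natDegree hR
    rw [hlead.natDegree_map, hdeg, ((monic_X_sub_C (1 : ZMod ℓ)).pow d).natDegree_mul hRmon,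
      natDegree_pow, natDegree_X_sub_C, mul_one] at h5
    exact h5.symm
  have hrefl : P.map f = reflect P.natDegree (P.reverse.map f) := by
    rw [reverse, reflect_map, reflect_reflect]
  have hX : ∀ e : ℕ, reflect e ((X - C (1 : ZMod ℓ)) ^ e) = (1 - X) ^ e := by
    intro e
    induction e with
    | zero => simp
    | succ e ih =>
      have h1 : reflect 1 (X - C (1 : ZMod ℓ)) = 1 - X := by
        rw [reflect_sub]
        simp
      rw [pow_succ, reflect_mul _ _ (F := e) (G := 1), ih, h1, pow_succ]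
      · rw [natDegree_pow, natDegree_X_sub_C, mul_one]
      · rw [natDegree_X_sub_C]
  have hdvd : (X - C (1 : ZMod ℓ)) ^ d ∣ P.map f := by
    rw [hrefl, hR, ← hdegR, reflect_mul _ _ (by rw [natDegree_pow, natDegree_X_sub_C, mul_one])
      le_rfl, hX]
    have e1 : (X - C (1 : ZMod ℓ)) = -(1 - X) := by rw [C_1]; ring
    rw [e1, neg_pow]
    have h6 : IsUnit ((-1 : (ZMod ℓ)[X]) ^ d) := (isUnit_one.neg).pow _
    exact (h6.mul_left_dvd).2 (dvd_mul_right _ _)
  refine (le_rootMultiplicity_iff ?_).2 hdvd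
  intro hz
  have h6 := congrArg (fun Q => coeff Q 0) hz
  simp only [coeff_map, h0, map_one, coeff_zero] at h6
  exact one_ne_zero h6

end Pool.Agent.Helper66.ZC
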