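import Pool.Agent.Helper66.ZC.Points

/-!
# Zeta functions of finite schemes: roots of a polynomial in one variable
-/

open PowerSeries

namespace Pool.Agent.Helper66.ZC

section

variable {F : Type} [Field F] [Fintype F]

/-- The number of roots of `h` in the extension of degree `k` of `F`. -/
noncomputable def rootNum (h : Polynomial F) (k : ℕ) : ℕ :=
  {t : AlgebraicClosure F | t ^ (Fintype.card F ^ k) = t ∧ Polynomial.aeval t h = 0}.ncard

theorem rootNum_irreducible {π : Polynomial F} (hπ : Irreducible π) {k : ℕ} :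
    rootNum π k = if π.natDegree ∣ k then π.natDegree else 0 := by
  classical
  have hiff := hπ.natDegree_dvd_iff_dvd_X_pow_card_pow_sub_X (n := k)
  rw [Nat.card_eq_fintype_card] at hiff
  unfold rootNum
  split_ifs with hd
  · have h1 := hiff.1 hd
    have h2 : {t : AlgebraicClosure F | t ^ (Fintype.card F ^ k) = t ∧
        Polynomial.aeval t π = 0} = π.rootSet (AlgebraicClosure F) := by
      ext t
      rw [Polynomial.mem_rootSet]
      constructor
      · rintro ⟨_, h⟩
        exact ⟨hπ.ne_zero, h⟩
      · rintro ⟨_, h⟩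
        refine ⟨?_, h⟩
        obtain ⟨c, hc⟩ := h1
        have h3 := congrArg (Polynomial.aeval t) hc
        rw [map_mul, h, zero_mul, map_sub, map_pow, Polynomial.aeval_X] at h3
        exact sub_eq_zero.1 h3
    rw [h2, ← Nat.card_coe_set_eq, Nat.card_eq_fintype_card]
    exact Polynomial.card_rootSet_eq_natDegree
      (PerfectField.separable_of_irreducible hπ) (IsAlgClosed.splits _)
  · rw [Set.ncard_eq_zero (s := {t : AlgebraicClosure F | t ^ (Fintype.card F ^ k) = t ∧
        Polynomial.aeval t π = 0}) ((Set.Finite.subset (π.rootSet_finite (AlgebraicClosure F)))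
        (fun t ht => Polynomial.mem_rootSet.2 ⟨hπ.ne_zero, ht.2⟩))]
    rw [Set.eq_empty_iff_forall_notMem]
    rintro t ⟨h1, h2⟩
    apply hd
    rw [hiff, ← hπ.dvd_iff_aeval_eq_zero h2, map_sub, map_pow, Polynomial.aeval_X, h1, sub_self]

/-- The zeta function of a closed point of degree `d`. -/
theorem zeta_point {d : ℕ} (hd : 0 < d) :
    zeta (fun k => if d ∣ k then d else 0) * (1 - X ^ d) = 1 := by
  refine eq_of_derivative (h := 0) ?_ ?_ ?_
  · rw [Derivation.leibniz, derivative_zeta, smul_eq_mul, smul_eq_mul, map_sub, derivative_one,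
      Derivation.leibniz_pow, derivative_X, smul_eq_mul]
    have h2 : (PowerSeries.mk fun k => ((if d ∣ k + 1 then d else 0 : ℕ) : ℚ)) *
        (1 - X ^ d) = (d : ℚ⟦X⟧) * X ^ (d - 1) := by
      ext k
      rw [mul_sub, mul_one, map_sub, coeff_mk, coeff_mul_X_pow']
      have hr : coeff k ((d : ℚ⟦X⟧) * X ^ (d - 1)) = if k = d - 1 then (d : ℚ) else 0 := by
        rw [← nsmul_eq_mul, map_nsmul, coeff_X_pow]
        split_ifs <;> simp
      rw [hr]
      by_cases hk : d ≤ k
      · rw [if_pos hk, coeff_mk, if_neg (by omega : ¬ k = d - 1)]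
        have h3 : (d ∣ k + 1) ↔ (d ∣ k - d + 1) := by
          have h4 : k + 1 = (k - d + 1) + d := by omega
          rw [h4]
          exact Nat.dvd_add_left (dvd_refl d)
        simp only [h3]
        ring
      · rw [if_neg hk, sub_zero]
        by_cases hk2 : k = d - 1
        · have h5 : k + 1 = d := by omega
          rw [if_pos hk2, h5, if_pos (dvd_refl d)]
        · rw [if_neg hk2, if_neg]
          · simp
          · intro h
            have := Nat.le_of_dvd (by omega) h
            omega
    simp only [nsmul_eq_mul, mul_one]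
    linear_combination (zeta fun k => if d ∣ k then d else 0) * h2
  · rw [derivative_one]; simp
  · rw [map_mul, constantCoeff_zeta]
    simp [hd.ne']

theorem zeta_sum {ι : Type} (s : Finset ι) (N : ι → ℕ → ℕ) :
    zeta (fun k => ∑ i ∈ s, N i k) = ∏ i ∈ s, zeta (N i) := by
  classical
  induction s using Finset.induction_on with
  | empty =>
    rw [Finset.prod_empty]
    refine eq_of_derivative (h := 0) ?_ ?_ ?_
    · rw [derivative_zeta]
      congr 1
    · rw [derivative_one]; simp
    · rw [constantCoeff_zeta, map_one]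
  | insert a s ha ih =>
    rw [Finset.prod_insert ha, ← ih, ← zeta_add]
    congr 1
    funext k
    rw [Finset.sum_insert ha]

/-- The set of monic irreducible factors of `h`. -/
noncomputable def primes (h : Polynomial F) : Finset (Polynomial F) := by
  classical exact (UniqueFactorizationMonoid.normalizedFactors h).toFinset

omit [Fintype F] in
theorem irreducible_of_mem {h π : Polynomial F} (hπ : π ∈ primes h) : Irreducible π := by
  classical
  unfold primes at hπ
  rw [Multiset.mem_toFinset] at hπ
  exact UniqueFactorizationMonoid.irreducible_of_normalized_factor π hπ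

omit [Fintype F] in
theorem monic_of_mem {h π : Polynomial F} (hπ : π ∈ primes h) : π.Monic := by
  classical
  unfold primes at hπ
  rw [Multiset.mem_toFinset] at hπ
  have h1 := UniqueFactorizationMonoid.normalize_normalized_factor π hπ
  have h2 := UniqueFactorizationMonoid.irreducible_of_normalized_factor π hπ
  rw [← h1]
  exact Polynomial.monic_normalize h2.ne_zero

omit [Fintype F] in
theorem aeval_eq_zero_iff {h : Polynomial F} (h0 : h ≠ 0) (t : AlgebraicClosure F) :
    Polynomial.aeval t h = 0 ↔ ∃ π ∈ primes h, Polynomial.aeval t π = 0 := by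
  classical
  have h1 := UniqueFactorizationMonoid.prod_normalizedFactors h0
  constructor
  · intro ht
    obtain ⟨u, hu⟩ := h1
    rw [← hu, map_mul] at ht
    rcases mul_eq_zero.1 ht with h2 | h2
    · rw [map_multiset_prod, Multiset.prod_eq_zero_iff, Multiset.mem_map] at h2
      obtain ⟨π, hπ, h3⟩ := h2
      exact ⟨π, Multiset.mem_toFinset.2 hπ, h3⟩
    · exfalso
      have h3 : IsUnit (Polynomial.aeval t (u : Polynomial F)) := u.isUnit.map _
      rw [h2] at h3
      exact not_isUnit_zero h3
  · rintro ⟨π, hπ, ht⟩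
    have h2 : π ∣ h := UniqueFactorizationMonoid.dvd_of_mem_normalizedFactors
      (Multiset.mem_toFinset.1 hπ)
    obtain ⟨c, rfl⟩ := h2
    rw [map_mul, ht, zero_mul]

theorem rootNum_eq_sum {h : Polynomial F} (h0 : h ≠ 0) (k : ℕ) :
    rootNum h k = ∑ π ∈ primes h, rootNum π k := by
  classical
  unfold rootNum
  have h1 : {t : AlgebraicClosure F | t ^ (Fintype.card F ^ k) = t ∧
      Polynomial.aeval t h = 0} = ⋃ π ∈ primes h, {t : AlgebraicClosure F |
        t ^ (Fintype.card F ^ k) = t ∧ Polynomial.aeval t π = 0} := by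
    ext t
    simp only [Set.mem_iUnion, Set.mem_ofPred_eq, aeval_eq_zero_iff h0, exists_prop]
    constructor
    · rintro ⟨a, π, b, c⟩
      exact ⟨π, b, a, c⟩
    · rintro ⟨π, b, a, c⟩
      exact ⟨a, π, b, c⟩
  have hfin : ∀ π ∈ (primes h : Set (Polynomial F)), {t : AlgebraicClosure F |
      t ^ (Fintype.card F ^ k) = t ∧ Polynomial.aeval t π = 0}.Finite := by
    intro π hπ
    have hi := irreducible_of_mem (Finset.mem_coe.1 hπ)
    exact (π.rootSet_finite (AlgebraicClosure F)).subset
      fun t ht => Polynomial.mem_rootSet.2 ⟨hi.ne_zero, ht.2⟩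
  have h2 := Set.Finite.ncard_biUnion (primes h).finite_toSet hfin ?_
  · rw [h1]
    simp only [Finset.mem_coe] at h2
    rw [h2]
    exact finsum_mem_finset_eq_sum _ (primes h)
  · intro π hπ π' hπ' hne
    rw [Function.onFun, Set.disjoint_left]
    rintro t ⟨_, ht⟩ ⟨_, ht'⟩
    apply hne
    have hi := irreducible_of_mem (Finset.mem_coe.1 hπ)
    have hi' := irreducible_of_mem (Finset.mem_coe.1 hπ')
    have e1 := minpoly.eq_of_irreducible_of_monic hi ht (monic_of_mem (Finset.mem_coe.1 hπ))
    have e2 := minpoly.eq_of_irreducible_of_monic hi' ht' (monic_of_mem (Finset.mem_coe.1 hπ'))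
    rw [e1, e2]

end

end Pool.Agent.Helper66.ZC
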