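import Pool.Agent.Helper66.ZC.Cover
import Pool.Agent.Helper66.ZC.Defs

/-!
# Zeta functions attached to counting sequences
-/

open PowerSeries

namespace Pool.Agent.Helper66.ZC

theorem zeta_hasSubst (N : ℕ → ℕ) :
    PowerSeries.HasSubst (PowerSeries.mk fun k => (N k : ℚ) / (k : ℚ) : ℚ⟦X⟧) := by
  apply HasSubst.of_constantCoeff_zero'
  rw [← coeff_zero_eq_constantCoeff_apply, coeff_mk]
  simp

theorem constantCoeff_zeta (N : ℕ → ℕ) : constantCoeff (zeta N) = 1 := by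
  have h := zeta_hasSubst N
  have h0 : MvPowerSeries.constantCoeff
      (PowerSeries.mk fun k => (N k : ℚ) / (k : ℚ) : ℚ⟦X⟧) = 0 := by
    change constantCoeff (PowerSeries.mk fun k => (N k : ℚ) / (k : ℚ) : ℚ⟦X⟧) = 0
    rw [← coeff_zero_eq_constantCoeff_apply, coeff_mk]
    simp
  have h1 : zeta N = (PowerSeries.exp ℚ - 1).subst
      (PowerSeries.mk fun k => (N k : ℚ) / (k : ℚ)) + 1 := by
    unfold zeta
    rw [← coe_substAlgHom h, map_sub, map_one]
    ring
  rw [h1, map_add, map_one]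
  have h2 := constantCoeff_subst_eq_zero h0 (PowerSeries.exp ℚ - 1)
    (by rw [map_sub, constantCoeff_exp, map_one, sub_self])
  change constantCoeff _ = 0 at h2
  rw [h2, zero_add]

theorem derivative_zeta (N : ℕ → ℕ) :
    d⁄dX ℚ (zeta N) = zeta N * PowerSeries.mk fun k => (N (k + 1) : ℚ) := by
  unfold zeta
  rw [derivative_subst (zeta_hasSubst N), derivative_exp]
  congr 1
  ext k
  rw [coeff_derivative, coeff_mk, coeff_mk]
  push_cast
  field_simp

theorem zeta_congr {N N' : ℕ → ℕ} (h : ∀ k, 0 < k → N k = N' k) : zeta N = zeta N' := by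
  unfold zeta
  congr 1
  ext k
  rw [coeff_mk, coeff_mk]
  rcases Nat.eq_zero_or_pos k with rfl | hk
  · simp
  · rw [h k hk]

/-- Uniqueness of solutions of `A' = A h`, `A(0) = c`. -/
theorem eq_of_derivative {A B h : ℚ⟦X⟧} (hA : d⁄dX ℚ A = A * h) (hB : d⁄dX ℚ B = B * h)
    (h0 : constantCoeff A = constantCoeff B) : A = B := by
  ext n
  induction n using Nat.strong_induction_on with
  | _ n ih =>
    cases n with
    | zero =>
      rw [coeff_zero_eq_constantCoeff_apply, coeff_zero_eq_constantCoeff_apply, h0]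
    | succ n =>
      have h1 := congrArg (coeff n) hA
      have h2 := congrArg (coeff n) hB
      rw [coeff_derivative, coeff_mul] at h1 h2
      have h3 : ∑ p ∈ Finset.HasAntidiagonal.antidiagonal n, coeff p.1 A * coeff p.2 h =
          ∑ p ∈ Finset.HasAntidiagonal.antidiagonal n, coeff p.1 B * coeff p.2 h := by
        refine Finset.sum_congr rfl fun p hp => ?_
        have hp' : p.1 + p.2 = n := Finset.HasAntidiagonal.mem_antidiagonal.1 hp
        rw [ih p.1 (by omega)]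
      rw [h3, ← h2] at h1
      have hn : ((n : ℚ) + 1) ≠ 0 := by positivity
      exact mul_right_cancel₀ hn h1

theorem zeta_add (N N' : ℕ → ℕ) : zeta (fun k => N k + N' k) = zeta N * zeta N' := by
  refine eq_of_derivative (derivative_zeta _) ?_ ?_
  · rw [Derivation.leibniz, derivative_zeta, derivative_zeta, smul_eq_mul, smul_eq_mul]
    have h : (PowerSeries.mk fun k => (((N (k + 1) + N' (k + 1) : ℕ)) : ℚ)) =
        (PowerSeries.mk fun k => (N (k + 1) : ℚ)) +
          (PowerSeries.mk fun k => (N' (k + 1) : ℚ)) := by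
      ext k
      rw [map_add, coeff_mk, coeff_mk, coeff_mk]
      push_cast; ring
    rw [h]; ring
  · rw [map_mul, constantCoeff_zeta, constantCoeff_zeta, constantCoeff_zeta, one_mul]

/-- The zeta function of the sequence `a ^ k`. -/
theorem zeta_pow (a : ℕ) :
    zeta (fun k => a ^ k) * (1 - PowerSeries.C (a : ℚ) * X) = 1 := by
  have h1 : zeta (fun k => a ^ k) * (1 - PowerSeries.C (a : ℚ) * X) = 1 := by
    refine eq_of_derivative (h := 0) ?_ ?_ ?_
    · rw [Derivation.leibniz, derivative_zeta, smul_eq_mul, smul_eq_mul, map_sub, derivative_one,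
        Derivation.leibniz, derivative_C, derivative_X, smul_eq_mul, smul_eq_mul]
      have h2 : (PowerSeries.mk fun k => ((a ^ (k + 1) : ℕ) : ℚ)) *
          (1 - PowerSeries.C (a : ℚ) * X) = PowerSeries.C (a : ℚ) := by
        ext k
        rw [mul_sub, mul_one, map_sub, coeff_mk, mul_comm (PowerSeries.C (a : ℚ)) X, ← mul_assoc,
          coeff_mul_C]
        cases k with
        | zero => simp
        | succ k =>
          rw [coeff_succ_mul_X, coeff_mk, coeff_C]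
          simp only [Nat.succ_ne_zero, if_false]
          push_cast; ring
      linear_combination (zeta fun k => a ^ k) * h2
    · rw [derivative_one]; simp
    · rw [map_mul, constantCoeff_zeta]
      simp
  exact h1

variable {X Y : Type}

theorem cycNum_zero (φ : Equiv.Perm X) : cycNum φ 0 = 1 := by
  unfold cycNum
  rw [Set.ncard_eq_one]
  refine ⟨0, ?_⟩
  ext D
  rw [Set.mem_singleton_iff]
  constructor
  · intro h
    exact (Finsupp.degree_eq_zero_iff D).1 h.2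
  · rintro rfl
    exact ⟨fun x => rfl, map_zero _⟩

/-- The zeta function counts effective zero cycles. -/
theorem zeta_fixNum {φ : Equiv.Perm X} (hφ : FinFix φ) :
    zeta (fixNum φ) = PowerSeries.mk fun n => (cycNum φ n : ℚ) := by
  refine eq_of_derivative (derivative_zeta _) ?_ ?_
  · ext n
    rw [coeff_derivative, coeff_mk, coeff_mul]
    have h := cyc_rec hφ (n + 1)
    have h' : ((n : ℚ) + 1) * cycNum φ (n + 1) =
        ∑ k ∈ Finset.range (n + 1), (fixNum φ (k + 1) : ℚ) * cycNum φ (n - k) := by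
      have h2 := congrArg (fun t : ℕ => (t : ℚ)) h
      push_cast at h2
      rw [h2]
    rw [mul_comm, h', Finset.Nat.sum_antidiagonal_eq_sum_range_succ_mk, ← Finset.sum_flip]
    refine Finset.sum_congr rfl fun k hk => ?_
    rw [Finset.mem_range] at hk
    rw [coeff_mk, coeff_mk, Nat.sub_sub_self (by omega)]
    ring
  · rw [constantCoeff_zeta, ← coeff_zero_eq_constantCoeff_apply, coeff_mk, cycNum_zero]
    simp

/-- The zeta function with integer coefficients. -/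
noncomputable def zint (φ : Equiv.Perm X) : ℤ⟦X⟧ := PowerSeries.mk fun n => (cycNum φ n : ℤ)

theorem zint_map {φ : Equiv.Perm X} (hφ : FinFix φ) :
    PowerSeries.map (Int.castRingHom ℚ) (zint φ) = zeta (fixNum φ) := by
  rw [zeta_fixNum hφ]
  ext n
  simp [zint]

theorem coe_map_int {R : Type} [CommRing R] (f : ℤ →+* R) (P : Polynomial ℤ) :
    PowerSeries.map f (P : ℤ⟦X⟧) = ((P.map f : Polynomial R) : R⟦X⟧) := by
  ext n
  simp

theorem expand_prime_pow {ℓ : ℕ} [Fact ℓ.Prime] (r : ℕ) (f : Polynomial (ZMod ℓ)) :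
    Polynomial.expand (ZMod ℓ) (ℓ ^ r) f = f ^ (ℓ ^ r) := by
  induction r with
  | zero => simp
  | succ r ih =>
    rw [pow_succ, Polynomial.expand_mul, ZMod.expand_card, map_pow, ih, ← pow_mul]

theorem coe_expand {R : Type} [CommRing R] (m : ℕ) (hm : m ≠ 0) (f : Polynomial R) :
    ((Polynomial.expand R m f : Polynomial R) : R⟦X⟧) =
      PowerSeries.expand m hm (f : R⟦X⟧) := by
  ext n
  rw [Polynomial.coeff_coe, Polynomial.coeff_expand (Nat.pos_of_ne_zero hm), coeff_expand]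
  simp [Polynomial.coeff_coe]

/-- The fundamental congruence. -/
theorem IsCover.zint_congr {φ : Equiv.Perm X} {ψ : Equiv.Perm Y} {σ : Equiv.Perm X}
    {π : X → Y} {ℓ r : ℕ} (hℓ : ℓ.Prime) (h : IsCover φ ψ σ π (ℓ ^ r)) (hφ : FinFix φ) :
    PowerSeries.map (Int.castRingHom (ZMod ℓ)) (zint φ) =
      PowerSeries.expand (ℓ ^ r) (pow_ne_zero r hℓ.ne_zero)
        (PowerSeries.map (Int.castRingHom (ZMod ℓ)) (zint ψ)) := by
  ext n
  rw [coeff_map, coeff_expand, coeff_map, zint, zint, coeff_mk, coeff_mk]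
  have h1 := h.cycNum_modEq hℓ hφ n
  have h2 := (ZMod.natCast_eq_natCast_iff _ _ _).2 h1
  by_cases hd : ℓ ^ r ∣ n
  · rw [if_pos hd] at h2 ⊢
    simpa using h2
  · rw [if_neg hd] at h2 ⊢
    simpa using h2

/-- Congruence for the quotient of the zeta functions of a free cyclic cover. -/
theorem IsCover.poly_congr₂ {φ : Equiv.Perm X} {ψ : Equiv.Perm Y} {σ : Equiv.Perm X}
    {π : X → Y} {ℓ r : ℕ} (hℓ : ℓ.Prime) (h : IsCover φ ψ σ π (ℓ ^ r)) (hφ : FinFix φ)
    (hψ : FinFix ψ) {A₁ A₂ P₁ P₂ : Polynomial ℤ} (h0 : A₁.coeff 0 = 1)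
    (hU : zeta (fixNum ψ) * (A₂.map (Int.castRingHom ℚ) : Polynomial ℚ) =
      ((A₁.map (Int.castRingHom ℚ) : Polynomial ℚ) : ℚ⟦X⟧))
    (hX : zeta (fixNum φ) * (P₁.map (Int.castRingHom ℚ) : Polynomial ℚ) =
      zeta (fixNum ψ) * (P₂.map (Int.castRingHom ℚ) : Polynomial ℚ)) :
    P₁.map (Int.castRingHom (ZMod ℓ)) * A₁.map (Int.castRingHom (ZMod ℓ)) ^ (ℓ ^ r - 1) =
      P₂.map (Int.castRingHom (ZMod ℓ)) *
        A₂.map (Int.castRingHom (ZMod ℓ)) ^ (ℓ ^ r - 1) := by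
  have : Fact ℓ.Prime := ⟨hℓ⟩
  have hinj : Function.Injective (PowerSeries.map (Int.castRingHom ℚ)) :=
    PowerSeries.map_injective _ Int.cast_injective
  have hU' : zint ψ * (A₂ : ℤ⟦X⟧) = (A₁ : ℤ⟦X⟧) := by
    apply hinj
    rw [map_mul, zint_map hψ, coe_map_int, coe_map_int]
    exact hU
  have hX' : zint φ * (P₁ : ℤ⟦X⟧) = zint ψ * (P₂ : ℤ⟦X⟧) := by
    apply hinj
    rw [map_mul, map_mul, zint_map hφ, zint_map hψ, coe_map_int, coe_map_int]
    exact hX
  set f := Int.castRingHom (ZMod ℓ) with hf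
  set z := PowerSeries.map f (zint ψ) with hz
  have hm : ℓ ^ r ≠ 0 := pow_ne_zero r hℓ.ne_zero
  have hU2 : z * ((A₂.map f : Polynomial (ZMod ℓ)) : (ZMod ℓ)⟦X⟧) =
      ((A₁.map f : Polynomial (ZMod ℓ)) : (ZMod ℓ)⟦X⟧) := by
    have := congrArg (PowerSeries.map f) hU'
    rwa [map_mul, coe_map_int, coe_map_int] at this
  have hX2 : PowerSeries.expand (ℓ ^ r) hm z *
      ((P₁.map f : Polynomial (ZMod ℓ)) : (ZMod ℓ)⟦X⟧) =
      z * ((P₂.map f : Polynomial (ZMod ℓ)) : (ZMod ℓ)⟦X⟧) := by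
    have := congrArg (PowerSeries.map f) hX'
    rwa [map_mul, map_mul, coe_map_int, coe_map_int, h.zint_congr hℓ hφ] at this
  have hE : PowerSeries.expand (ℓ ^ r) hm z *
      ((A₂.map f : Polynomial (ZMod ℓ)) : (ZMod ℓ)⟦X⟧) ^ (ℓ ^ r) =
      ((A₁.map f : Polynomial (ZMod ℓ)) : (ZMod ℓ)⟦X⟧) ^ (ℓ ^ r) := by
    have := congrArg (PowerSeries.expand (ℓ ^ r) hm) hU2
    rwa [map_mul, ← coe_expand, ← coe_expand, expand_prime_pow, expand_prime_pow,
      Polynomial.coe_pow, Polynomial.coe_pow] at this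
  have hA1 : ((A₁.map f : Polynomial (ZMod ℓ)) : (ZMod ℓ)⟦X⟧) ≠ 0 := by
    intro h1
    have h2 := congrArg (coeff 0) h1
    rw [Polynomial.coeff_coe, Polynomial.coeff_map, h0, map_one, map_zero] at h2
    exact one_ne_zero h2
  apply Polynomial.coe_injective
  rw [Polynomial.coe_mul, Polynomial.coe_pow, Polynomial.coe_mul, Polynomial.coe_pow]
  apply mul_left_cancel₀ hA1
  set a := ((A₁.map f : Polynomial (ZMod ℓ)) : (ZMod ℓ)⟦X⟧) with ha
  set b := ((A₂.map f : Polynomial (ZMod ℓ)) : (ZMod ℓ)⟦X⟧) with hb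
  set p := ((P₁.map f : Polynomial (ZMod ℓ)) : (ZMod ℓ)⟦X⟧) with hp
  set p2 := ((P₂.map f : Polynomial (ZMod ℓ)) : (ZMod ℓ)⟦X⟧) with hp2
  have e1 : a * (p * a ^ (ℓ ^ r - 1)) = p * a ^ (ℓ ^ r) := by
    conv_rhs => rw [← Nat.sub_add_cancel (Nat.one_le_iff_ne_zero.2 hm), pow_succ]
    ring
  have e2 : z * b ^ (ℓ ^ r) = a * b ^ (ℓ ^ r - 1) := by
    conv_lhs => rw [← Nat.sub_add_cancel (Nat.one_le_iff_ne_zero.2 hm), pow_succ]
    rw [← hU2]; ring
  rw [e1, ← hE]
  calc p * (PowerSeries.expand (ℓ ^ r) hm z * b ^ (ℓ ^ r))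
      = (PowerSeries.expand (ℓ ^ r) hm z * p) * b ^ (ℓ ^ r) := by ring
    _ = p2 * (z * b ^ (ℓ ^ r)) := by rw [hX2]; ring
    _ = a * (p2 * b ^ (ℓ ^ r - 1)) := by rw [e2]; ring

theorem IsCover.poly_congr {φ : Equiv.Perm X} {ψ : Equiv.Perm Y} {σ : Equiv.Perm X}
    {π : X → Y} {ℓ r : ℕ} (hℓ : ℓ.Prime) (h : IsCover φ ψ σ π (ℓ ^ r)) (hφ : FinFix φ)
    (hψ : FinFix ψ) {A₁ A₂ P : Polynomial ℤ} (h0 : A₁.coeff 0 = 1)
    (hU : zeta (fixNum ψ) * (A₂.map (Int.castRingHom ℚ) : Polynomial ℚ) =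
      ((A₁.map (Int.castRingHom ℚ) : Polynomial ℚ) : ℚ⟦X⟧))
    (hX : zeta (fixNum φ) * (P.map (Int.castRingHom ℚ) : Polynomial ℚ) = zeta (fixNum ψ)) :
    P.map (Int.castRingHom (ZMod ℓ)) * A₁.map (Int.castRingHom (ZMod ℓ)) ^ (ℓ ^ r - 1) =
      A₂.map (Int.castRingHom (ZMod ℓ)) ^ (ℓ ^ r - 1) := by
  have h1 := h.poly_congr₂ hℓ hφ hψ (P₁ := P) (P₂ := 1) h0 hU
    (by rw [Polynomial.map_one, Polynomial.coe_one, mul_one]; exact hX)
  rwa [Polynomial.map_one, one_mul] at h1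

end Pool.Agent.Helper66.ZC
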