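import Pool.Agent.Helper66.ZC.Roots
import Pool.Agent.Helper66.ZC.Main

/-!
# Surfaces `w ^ m = (x - L(t)) ^ e₀ ∏ (x - c i) ^ (e i)`
-/

open PowerSeries

namespace Pool.Agent.Helper66.ZC

section

variable {F : Type} [Field F] [Fintype F] {s : ℕ}

/-- The polynomial `(x - L(t)) ^ e₀ ∏ (x - c i) ^ (e i)` in `x = X 0` and `t = X 1`. -/
noncomputable def starPoly (L : Polynomial F) (c : Fin s → F) (e₀ : ℕ) (e : Fin s → ℕ) :
    MvPolynomial (Fin 2) F :=
  (MvPolynomial.X 0 - Polynomial.aeval (MvPolynomial.X 1) L) ^ e₀ *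
    ∏ i, (MvPolynomial.X 0 - MvPolynomial.C (c i)) ^ (e i)

omit [Fintype F] in
theorem starPoly_ne_zero_iff (L : Polynomial F) (c : Fin s → F) {e₀ : ℕ} {e : Fin s → ℕ}
    (he₀ : e₀ ≠ 0) (he : ∀ i, e i ≠ 0) (v : Fin 2 → AlgebraicClosure F) :
    MvPolynomial.aeval v (starPoly L c e₀ e) ≠ 0 ↔
      v 0 ≠ Polynomial.aeval (v 1) L ∧ ∀ i, v 0 ≠ algebraMap F (AlgebraicClosure F) (c i) := by
  have h1 : MvPolynomial.aeval v (Polynomial.aeval (MvPolynomial.X 1 : MvPolynomial (Fin 2) F) L) =
      Polynomial.aeval (v 1) L := by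
    rw [← Polynomial.aeval_algHom_apply, MvPolynomial.aeval_X]
  unfold starPoly
  rw [map_mul, map_pow, map_sub, MvPolynomial.aeval_X, h1, map_prod, mul_ne_zero_iff,
    pow_ne_zero_iff he₀, sub_ne_zero, Finset.prod_ne_zero_iff]
  refine and_congr_right fun _ => ?_
  constructor
  · intro h i
    have h2 := h i (Finset.mem_univ i)
    rw [map_pow, pow_ne_zero_iff (he i), map_sub, MvPolynomial.aeval_X, MvPolynomial.aeval_C,
      sub_ne_zero] at h2
    exact h2
  · intro h i _
    rw [map_pow, pow_ne_zero_iff (he i), map_sub, MvPolynomial.aeval_X, MvPolynomial.aeval_C,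
      sub_ne_zero]
    exact h i

theorem aeval_fix (h : Polynomial F) {k : ℕ} {t : AlgebraicClosure F}
    (ht : t ^ (Fintype.card F ^ k) = t) :
    (Polynomial.aeval t h) ^ (Fintype.card F ^ k) = Polynomial.aeval t h := by
  have h1 : ∀ (j : ℕ) (u : AlgebraicClosure F),
      (Polynomial.aeval u h) ^ (Fintype.card F ^ j) =
        Polynomial.aeval (u ^ (Fintype.card F ^ j)) h := by
    intro j
    induction j with
    | zero => intro u; simp
    | succ j ih =>
      intro u
      rw [pow_succ, pow_mul, ih, pow_mul]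
      have h2 := Polynomial.aeval_algHom_apply
        (FiniteField.frobeniusAlgHom F (AlgebraicClosure F)) (u ^ (Fintype.card F ^ j)) h
      rw [FiniteField.coe_frobeniusAlgHom] at h2
      exact h2.symm
  rw [h1, ht]

theorem const_fix (a : F) (k : ℕ) :
    (algebraMap F (AlgebraicClosure F) a) ^ (Fintype.card F ^ k) =
      algebraMap F (AlgebraicClosure F) a := by
  rw [← map_pow, FiniteField.pow_card_pow]

theorem star_count (L : Polynomial F) {c : Fin s → F} (hc : Function.Injective c) {e₀ : ℕ}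
    {e : Fin s → ℕ} (he₀ : e₀ ≠ 0) (he : ∀ i, e i ≠ 0) {k : ℕ} (hk : 0 < k) :
    numPts F (openSet ∅ (starPoly L c e₀ e)) k + (s + 1) * Fintype.card F ^ k =
      (Fintype.card F ^ 2) ^ k + ∑ i, rootNum (L - Polynomial.C (c i)) k := by
  classical
  set K : Finset (AlgebraicClosure F) := (fix_finite F hk).toFinset with hK
  have hKmem : ∀ x, x ∈ K ↔ x ^ (Fintype.card F ^ k) = x := by
    intro x
    rw [hK, Set.Finite.mem_toFinset]
    rfl
  have hKcard : K.card = Fintype.card F ^ k := by
    rw [← fix_card F hk, Set.ncard_eq_toFinset_card _ (fix_finite F hk)]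
  set ι := algebraMap F (AlgebraicClosure F) with hι
  have hιinj : Function.Injective ι := ι.injective
  -- the fibres
  have hfib : ∀ t ∈ K, (K.filter fun x => x ≠ Polynomial.aeval t L ∧ ∀ i, x ≠ ι (c i)).card +
      (s + 1) = Fintype.card F ^ k +
        (Finset.univ.filter fun i : Fin s => Polynomial.aeval t L = ι (c i)).card := by
    intro t ht
    set B : Finset (AlgebraicClosure F) := Finset.univ.image fun i => ι (c i) with hB
    have hBcard : B.card = s := by
      have hcomp : Function.Injective fun i => ι (c i) := hιinj.comp hc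
      rw [hB, Finset.card_image_of_injective _ hcomp, Finset.card_univ, Fintype.card_fin]
    have hBK : insert (Polynomial.aeval t L) B ⊆ K := by
      intro x hx
      rw [Finset.mem_insert] at hx
      rcases hx with rfl | hx
      · rw [hKmem]
        exact aeval_fix L ((hKmem t).1 ht)
      · rw [hB, Finset.mem_image] at hx
        obtain ⟨i, _, rfl⟩ := hx
        rw [hKmem]
        exact const_fix (c i) k
    have hfil : (K.filter fun x => x ≠ Polynomial.aeval t L ∧ ∀ i, x ≠ ι (c i)) =
        K \ insert (Polynomial.aeval t L) B := by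
      ext x
      rw [Finset.mem_filter, Finset.mem_sdiff, Finset.mem_insert, hB, Finset.mem_image, not_or]
      refine and_congr_right fun _ => and_congr_right fun _ => ?_
      constructor
      · rintro h ⟨i, _, hi⟩
        exact h i hi.symm
      · intro h i hi
        exact h ⟨i, Finset.mem_univ i, hi.symm⟩
    have hle := Finset.card_le_card hBK
    rw [hfil, Finset.card_sdiff_of_subset hBK, hKcard]
    rw [hKcard] at hle
    by_cases hmem : Polynomial.aeval t L ∈ B
    · have h1 : (Finset.univ.filter fun i : Fin s => Polynomial.aeval t L = ι (c i)).card = 1 := by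
        rw [hB, Finset.mem_image] at hmem
        obtain ⟨i, _, hi⟩ := hmem
        rw [Finset.card_eq_one]
        refine ⟨i, ?_⟩
        ext j
        rw [Finset.mem_filter, Finset.mem_singleton]
        constructor
        · rintro ⟨_, hj⟩
          exact hc (hιinj (hj.symm.trans hi.symm))
        · rintro rfl
          exact ⟨Finset.mem_univ _, hi.symm⟩
      rw [Finset.insert_eq_of_mem hmem, hBcard] at hle ⊢
      rw [h1]
      omega
    · have h1 : (Finset.univ.filter fun i : Fin s => Polynomial.aeval t L = ι (c i)).card = 0 := by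
        rw [Finset.card_eq_zero, Finset.filter_eq_empty_iff]
        intro i _ hi
        apply hmem
        rw [hB, Finset.mem_image]
        exact ⟨i, Finset.mem_univ i, hi.symm⟩
      rw [Finset.card_insert_of_notMem hmem, hBcard] at hle ⊢
      rw [h1]
      omega
  -- the number of points of the open set
  have hnum : numPts F (openSet ∅ (starPoly L c e₀ e)) k =
      ∑ t ∈ K, (K.filter fun x => x ≠ Polynomial.aeval t L ∧ ∀ i, x ≠ ι (c i)).card := by
    rw [← Finset.card_sigma]
    unfold numPts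
    rw [← Set.ncard_coe_finset, ← Set.ncard_image_of_injective (f := fun (p : Sigma fun _ :
      AlgebraicClosure F => AlgebraicClosure F) => (![p.2, p.1] : Fin 2 → AlgebraicClosure F))]
    · congr 1
      ext v
      simp only [Set.mem_ofPred_eq, Set.mem_image, Finset.mem_coe, Finset.mem_sigma,
        Finset.mem_filter, hKmem]
      constructor
      · rintro ⟨h1, h2⟩
        have h3 := (starPoly_ne_zero_iff L c he₀ he v).1 h1.2
        refine ⟨⟨v 1, v 0⟩, ⟨h2 1, h2 0, h3.1, h3.2⟩, ?_⟩
        funext i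
        fin_cases i <;> rfl
      · rintro ⟨p, ⟨h1, h2, h3, h4⟩, rfl⟩
        refine ⟨⟨fun g hg => hg.elim, (starPoly_ne_zero_iff L c he₀ he _).2 ⟨h3, h4⟩⟩, ?_⟩
        intro i
        fin_cases i
        · exact h2
        · exact h1
    · rintro ⟨a, b⟩ ⟨a', b'⟩ h
      have h1 : b = b' := congrFun h 0
      have h2 : a = a' := congrFun h 1
      rw [h1, h2]
  have hroot : ∑ i, rootNum (L - Polynomial.C (c i)) k =
      ∑ t ∈ K, (Finset.univ.filter fun i : Fin s => Polynomial.aeval t L = ι (c i)).card := by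
    simp only [Finset.card_filter]
    rw [Finset.sum_comm]
    refine Finset.sum_congr rfl fun i _ => ?_
    rw [← Finset.card_filter]
    unfold rootNum
    rw [← Set.ncard_coe_finset]
    congr 1
    ext t
    rw [Set.mem_ofPred_eq, Finset.mem_coe, Finset.mem_filter, hKmem, map_sub,
      Polynomial.aeval_C, sub_eq_zero]
  rw [hnum, hroot]
  have h1 := Finset.sum_congr (rfl : K = K) hfib
  simp only [Finset.sum_add_distrib, Finset.sum_const, hKcard, smul_eq_mul] at h1
  have h2 : (Fintype.card F ^ 2) ^ k = Fintype.card F ^ k * Fintype.card F ^ k := by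
    rw [← pow_mul, ← pow_add]; congr 1; ring
  rw [h2, mul_comm (s + 1), mul_add]
  exact h1

/-- The product of `1 - T ^ d` over the degrees `d` of the monic irreducible factors of the
polynomials `L - c i`. -/
noncomputable def starA (L : Polynomial F) (c : Fin s → F) : Polynomial ℤ :=
  ∏ i, ∏ π ∈ primes (L - Polynomial.C (c i)), (1 - Polynomial.X ^ π.natDegree)

theorem zeta_rootNum {h : Polynomial F} (h0 : h ≠ 0) :
    zeta (rootNum h) * ∏ π ∈ primes h, (1 - X ^ π.natDegree) = 1 := by
  have h1 : zeta (rootNum h) = ∏ π ∈ primes h, zeta (rootNum π) := by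
    rw [← zeta_sum]
    exact zeta_congr fun k _ => rootNum_eq_sum h0 k
  rw [h1, ← Finset.prod_mul_distrib]
  refine Finset.prod_eq_one fun π hπ => ?_
  have hi := irreducible_of_mem hπ
  rw [zeta_congr (N := rootNum π) (N' := fun k => if π.natDegree ∣ k then π.natDegree else 0)
    fun k _ => rootNum_irreducible hi]
  exact zeta_point hi.natDegree_pos

theorem zeta_star (L : Polynomial F) {c : Fin s → F} (hc : Function.Injective c) {e₀ : ℕ}
    {e : Fin s → ℕ} (he₀ : e₀ ≠ 0) (he : ∀ i, e i ≠ 0)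
    (hL : ∀ i, L - Polynomial.C (c i) ≠ 0) :
    zeta (numPts F (openSet ∅ (starPoly L c e₀ e))) *
      ((1 - C ((Fintype.card F : ℚ) ^ 2) * X) *
        ∏ i, ∏ π ∈ primes (L - Polynomial.C (c i)), (1 - X ^ π.natDegree)) =
      (1 - C (Fintype.card F : ℚ) * X) ^ (s + 1) := by
  set q := Fintype.card F with hq
  have hZ : zeta (numPts F (openSet ∅ (starPoly L c e₀ e))) *
      (zeta fun k => q ^ k) ^ (s + 1) =
      (zeta fun k => (q ^ 2) ^ k) * ∏ i, zeta (rootNum (L - Polynomial.C (c i))) := by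
    have h1 : (zeta fun k => q ^ k) ^ (s + 1) = zeta fun k => (s + 1) * q ^ k := by
      have h2 := zeta_sum (Finset.univ : Finset (Fin (s + 1))) (fun _ k => q ^ k)
      rw [Finset.prod_const, Finset.card_univ, Fintype.card_fin] at h2
      rw [← h2]
      congr 1
      funext k
      rw [Finset.sum_const, Finset.card_univ, Fintype.card_fin, smul_eq_mul]
    rw [h1, ← zeta_add, ← zeta_sum, ← zeta_add]
    exact zeta_congr fun k hk => star_count L hc he₀ he hk
  have e1 : (zeta fun k => q ^ k) ^ (s + 1) * (1 - C (q : ℚ) * X) ^ (s + 1) = 1 := by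
    rw [← mul_pow, zeta_pow, one_pow]
  have e2 := zeta_pow (q ^ 2)
  push_cast at e2
  have e3 : (∏ i, zeta (rootNum (L - Polynomial.C (c i)))) *
      ∏ i, ∏ π ∈ primes (L - Polynomial.C (c i)), (1 - X ^ π.natDegree) = 1 := by
    rw [← Finset.prod_mul_distrib]
    exact Finset.prod_eq_one fun i _ => zeta_rootNum (hL i)
  set zU := zeta (numPts F (openSet ∅ (starPoly L c e₀ e)))
  set z1 := (zeta fun k => q ^ k)
  set z2 := (zeta fun k => (q ^ 2) ^ k)
  set R := ∏ i, zeta (rootNum (L - Polynomial.C (c i)))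
  set D := ∏ i, ∏ π ∈ primes (L - Polynomial.C (c i)), ((1 : ℚ⟦X⟧) - X ^ π.natDegree)
  calc zU * ((1 - C ((q : ℚ) ^ 2) * X) * D)
      = zU * ((1 - C ((q : ℚ) ^ 2) * X) * D) * (z1 ^ (s + 1) * (1 - C (q : ℚ) * X) ^ (s + 1)) := by
        rw [e1, mul_one]
    _ = (zU * z1 ^ (s + 1)) * ((1 - C ((q : ℚ) ^ 2) * X) * D) * (1 - C (q : ℚ) * X) ^ (s + 1) := by
        ring
    _ = (z2 * (1 - C ((q : ℚ) ^ 2) * X)) * (R * D) * (1 - C (q : ℚ) * X) ^ (s + 1) := by
        rw [hZ]; ring
    _ = (1 - C (q : ℚ) * X) ^ (s + 1) := by rw [e2, e3, one_mul, one_mul]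

/-- The congruence for the surfaces `w ^ m = (x - L(t)) ^ e₀ ∏ (x - c i) ^ (e i)`. -/
theorem star {ℓ r : ℕ} (hℓ : ℓ.Prime) (hr : 0 < r) (hdvd : ℓ ^ r ∣ Fintype.card F - 1)
    (L : Polynomial F) {c : Fin s → F} (hc : Function.Injective c) {e₀ : ℕ}
    {e : Fin s → ℕ} (he₀ : e₀ ≠ 0) (he : ∀ i, e i ≠ 0)
    (hL : ∀ i, L - Polynomial.C (c i) ≠ 0) {P : Polynomial ℤ}
    (hP : zeta (numPts F (coverSet ∅ (starPoly L c e₀ e) (ℓ ^ r))) *
      (P.map (Int.castRingHom ℚ) : Polynomial ℚ) =
      zeta (numPts F (openSet ∅ (starPoly L c e₀ e)))) :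
    P.map (Int.castRingHom (ZMod ℓ)) * ((1 - Polynomial.X) ^ s) ^ (ℓ ^ r - 1) =
      (starA L c).map (Int.castRingHom (ZMod ℓ)) ^ (ℓ ^ r - 1) := by
  have : Fact ℓ.Prime := ⟨hℓ⟩
  set q : ℤ := (Fintype.card F : ℤ) with hq
  have hlin : ∀ u : ℤ, (((lin u).map (Int.castRingHom ℚ) : Polynomial ℚ) : ℚ⟦X⟧) =
      1 - C (u : ℚ) * X := by
    intro u
    rw [lin_map, eq_intCast, Polynomial.coe_sub, Polynomial.coe_one, Polynomial.coe_mul,
      Polynomial.coe_C, Polynomial.coe_X]
  have hA : (((starA L c).map (Int.castRingHom ℚ) : Polynomial ℚ) : ℚ⟦X⟧) =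
      ∏ i, ∏ π ∈ primes (L - Polynomial.C (c i)), (1 - X ^ π.natDegree) := by
    have h1 : ∀ Q : Polynomial ℤ, ((Q.map (Int.castRingHom ℚ) : Polynomial ℚ) : ℚ⟦X⟧) =
        (Polynomial.coeToPowerSeries.ringHom.comp
          (Polynomial.mapRingHom (Int.castRingHom ℚ))) Q := fun Q => rfl
    rw [h1, starA, map_prod]
    refine Finset.prod_congr rfl fun i _ => ?_
    rw [map_prod]
    refine Finset.prod_congr rfl fun π _ => ?_
    rw [← h1, Polynomial.map_sub, Polynomial.map_one, Polynomial.map_pow, Polynomial.map_X,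
      Polynomial.coe_sub, Polynomial.coe_one, Polynomial.coe_pow, Polynomial.coe_X]
  have hg := general (F := F) (n := 2) hℓ hdvd ∅ (starPoly L c e₀ e)
    (A₁ := (lin q) ^ (s + 1)) (A₂ := lin (q ^ 2) * starA L c) (P := P) ?_ ?_ hP
  · have hq1 : ((q : ℤ) : ZMod ℓ) = 1 := by
      have h1 : ((Fintype.card F - 1 : ℕ) : ZMod ℓ) = 0 :=
        (ZMod.natCast_eq_zero_iff _ _).2 ((dvd_pow_self ℓ hr.ne').trans hdvd)
      rw [Nat.cast_sub Fintype.card_pos, Nat.cast_one, sub_eq_zero] at h1
      rw [hq]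
      exact_mod_cast h1
    rw [Polynomial.map_mul, Polynomial.map_pow, lin_map, lin_map, mul_pow, map_pow, eq_intCast,
      hq1, one_pow, map_one, one_mul] at hg
    have hne : ((1 : Polynomial (ZMod ℓ)) - Polynomial.X) ^ (ℓ ^ r - 1) ≠ 0 := by
      apply pow_ne_zero
      intro h3
      have h4 := congrArg (Polynomial.coeff · 0) h3
      simp at h4
    apply mul_left_cancel₀ hne
    rw [← hg, pow_succ, mul_pow (((1 : Polynomial (ZMod ℓ)) - Polynomial.X) ^ s)]
    generalize (1 : Polynomial (ZMod ℓ)) - Polynomial.X = Y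
    ring
  · rw [Polynomial.coeff_zero_eq_eval_zero, Polynomial.eval_pow,
      ← Polynomial.coeff_zero_eq_eval_zero, lin_coeff_zero, one_pow]
  · rw [Polynomial.map_mul, Polynomial.coe_mul, hlin, hA, Polynomial.map_pow, Polynomial.coe_pow,
      hlin, hq]
    have h1 := zeta_star L hc he₀ he hL
    push_cast
    exact h1

end

end Pool.Agent.Helper66.ZC
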